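import Pool.Agent.Helper36.RK.GoalsQ

/-! # RK, Section E, part 2G: the polarization for an arbitrary invariant Kähler metric

No relation between the Kähler metric `H` and the flat metric `Hf` of the fibres is assumed. Real coordinates of the
fibres: `w = Lx lam z x = ∑ x_j lam_j(z)`, `x ∈ ℝ²ᵏ`. The Kähler form in the coordinates `(z, x)` has the bounded
components `fL z x j l = ω(∂_j, ∂_l)` and the mixed components `rL z x e l = ω(∂_e, ∂_l)`, which grow sublinearly in `x`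
(`SUBL`: return to a compact set by maps near the identity). So the averages `TN` of `fL` over large boxes do not depend
on `z` (closedness, integration by parts), and not on the box; their limit is the polarization. -/

open Complex Metric Set Filter Topology MeasureTheory Matrix
open scoped ContDiff ComplexConjugate ComplexOrder Manifold

namespace Pool.Agent.Helper36.RK

open Pool.Agent.Helper95.Lin Pool.Agent.Helper16.Abund Pool.Agent.Helper92.Orb Pool.Agent.Helper10.SP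
  Pool.Agent.Helper95.RK

/-- The real combinations of the `lam j` are, up to small errors, the translation parts of maps near the
identity. -/
def LimS {b k N : ℕ} (c : Fin N → Cn b) (P : Set (Cn b) → TriK b k → Prop)
    (lam : Fin (2 * k) → Cn b → Cn k) : Prop :=
  ∀ i : Fin N, ∀ ε > 0, ∃ B : ℝ, ∀ r : Fin (2 * k) → ℝ, ∃ t, BigK c P i t ∧
    ∀ z ∈ ball (c i) 3, ‖t.g z - z‖ ≤ ε ∧ MB (t.A z - 1) ε ∧
      ‖t.β z - ∑ j, (r j : ℂ) • lam j z‖ ≤ ε * ‖r‖ + B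

/-- LAMS. The periods (Section E, part 1; helper40). -/
def S_LAMS : Prop := ∀ {b k N : ℕ} (c : Fin N → Cn b) (R : ℝ) (P : Set (Cn b) → TriK b k → Prop)
  (Φ : Cn b → ℝ) (Hf : Cn b → Matrix (Fin k) (Fin k) ℂ) (C : ℝ), AFolK c R P Φ Hf C →
  ∃ lam : Fin (2 * k) → Cn b → Cn k, PerK c P lam ∧ LimS c P lam

/-- The point of the fibre over `z` with the real coordinates `x`. -/
noncomputable def Lx {b k : ℕ} (lam : Fin (2 * k) → Cn b → Cn k) (z : Cn b)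
    (x : Fin (2 * k) → ℝ) : Cn k := ∑ j, (x j : ℂ) • lam j z

/-- The derivative of `Lx lam · x` in the direction `e`. -/
noncomputable def dLx {b k : ℕ} (lam : Fin (2 * k) → Cn b → Cn k) (z : Cn b)
    (x : Fin (2 * k) → ℝ) (e : Cn b) : Cn k := ∑ j, (x j : ℂ) • fderiv ℂ (lam j) z e

/-- The components of the Kähler form along the fibres, in real coordinates. -/
noncomputable def fL {b k : ℕ} (H : Cn (b + k) → Matrix (Fin (b + k)) (Fin (b + k)) ℂ)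
    (lam : Fin (2 * k) → Cn b → Cn k) (z : Cn b) (x : Fin (2 * k) → ℝ) (j l : Fin (2 * k)) : ℝ :=
  (hermi (H (ptK z (Lx lam z x))) (ptK 0 (lam j z)) (ptK 0 (lam l z))).im

/-- The mixed components of the Kähler form, in real coordinates. -/
noncomputable def rL {b k : ℕ} (H : Cn (b + k) → Matrix (Fin (b + k)) (Fin (b + k)) ℂ)
    (lam : Fin (2 * k) → Cn b → Cn k) (z : Cn b) (x : Fin (2 * k) → ℝ) (e : Cn b)
    (l : Fin (2 * k)) : ℝ :=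
  (hermi (H (ptK z (Lx lam z x))) (ptK e (dLx lam z x e)) (ptK 0 (lam l z))).im

/-- The average of `fL` with the weight `φ` at the scale `s`. -/
noncomputable def TN {b k : ℕ} (H : Cn (b + k) → Matrix (Fin (b + k)) (Fin (b + k)) ℂ)
    (lam : Fin (2 * k) → Cn b → Cn k) (φ : (Fin (2 * k) → ℝ) → ℝ) (z : Cn b) (s : ℝ)
    (j l : Fin (2 * k)) : ℝ := ∫ y, φ y * fL H lam z (s • y) j l

/-- Weight functions. -/
def WF {m : ℕ} (φ : (Fin m → ℝ) → ℝ) : Prop := ContDiff ℝ 1 φ ∧ HasCompactSupport φ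

/-! ## Abstract analysis -/

/-- CLR. A Kähler form is closed (real form).
PROOF. `h w u v := ∑_(l,i,j) (1/2) cd_l H_ij w_l u_i conj (v_j)`. `closed`: `h w u v = h u w v`. `H_ji = conj H_ij` on `W`
(`PosDef.isHermitian`, `W` open) gives `cdb_l H_ij = conj (cd_l H_ji)`, and `fderiv ℝ H_ij x w = (1/2) ∑_l (cd_l H_ij w_l + cdb_l H_ij
conj (w_l))` (direct computation from the definitions of `cd`, `cdb`: `w = ∑ (Re w_l) e_l + (Im w_l) I e_l`), so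
`fderiv ℝ (hermi (H ·) u v) x w = h w u v + conj (h w v u)`, imaginary part `Im (h w u v) - Im (h w v u)`. In the cyclic
sum over `(w, u, v)` the six terms cancel in pairs by the symmetry of `h`. -/
def S_CLR : Prop := ∀ {n : ℕ} (W : Set (Cn n)) (H : Cn n → Matrix (Fin n) (Fin n) ℂ), IsOpen W →
  (∀ x ∈ W, (H x).PosDef) → (∀ i j, ContDiffOn ℝ ∞ (fun x => H x i j) W) →
  (∀ x ∈ W, ∀ i j l, cd l (fun y => H y i j) x = cd i (fun y => H y l j) x) →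
  ∀ x ∈ W, ∀ u v w : Cn n,
    fderiv ℝ (fun y => (hermi (H y) u v).im) x w + fderiv ℝ (fun y => (hermi (H y) v w).im) x u +
      fderiv ℝ (fun y => (hermi (H y) w u).im) x v = 0

/-- STK. Averages of closed forms (integration by parts).
PROOF. `h τ := ∫ φ y * f τ (s y)`. `φ` has compact support and `∂_τ f` is continuous, so `h` has the derivative
`h' τ = ∫ φ y * ∂_τ f (τ, s y)` on `(-δ, 1 + δ)` (`hasDerivAt_integral_of_dominated_loc_of_deriv_le`; the bound is the maximum over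
the compact set `[τ - η, τ + η] × tsupport`, times `|φ|`). `∂_τ f (τ, s y) = s⁻¹ (∂_j G_l - ∂_l G_j)(y)`, `G_l y := rl τ (s y)`,
`G_j y := rj τ (s y)`. Integration by parts (`integral_mul_fderiv_eq_neg_fderiv_mul_of_integrable` or the version for line
derivatives): `h' τ = - s⁻¹ ∫ (∂_j φ G_l - ∂_l φ G_j)`, `|G| ≤ ε s ‖y‖ + B`. So `|h' τ| ≤ ∫ (|∂_j φ| + |∂_l φ|)(ε ‖y‖ + B / s)` and the
mean value theorem. -/
def S_STK : Prop := ∀ {m : ℕ} (j l : Fin m) (f rl rj : ℝ → (Fin m → ℝ) → ℝ)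
  (φ : (Fin m → ℝ) → ℝ) (ε B s δ : ℝ), WF φ → 0 < s → 0 ≤ ε → 0 ≤ B → 0 < δ →
  ContDiffOn ℝ 1 (fun p : ℝ × (Fin m → ℝ) => f p.1 p.2) (Ioo (-δ) (1 + δ) ×ˢ univ) →
  ContDiffOn ℝ 1 (fun p : ℝ × (Fin m → ℝ) => rl p.1 p.2) (Ioo (-δ) (1 + δ) ×ˢ univ) →
  ContDiffOn ℝ 1 (fun p : ℝ × (Fin m → ℝ) => rj p.1 p.2) (Ioo (-δ) (1 + δ) ×ˢ univ) →
  (∀ τ ∈ Icc (0 : ℝ) 1, ∀ x, deriv (fun τ' => f τ' x) τ =
    fderiv ℝ (rl τ) x (Pi.single j 1) - fderiv ℝ (rj τ) x (Pi.single l 1)) →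
  (∀ τ ∈ Icc (0 : ℝ) 1, ∀ x, |rl τ x| ≤ ε * ‖x‖ + B ∧ |rj τ x| ≤ ε * ‖x‖ + B) →
  |(∫ y, φ y * f 1 (s • y)) - ∫ y, φ y * f 0 (s • y)| ≤
    ∫ y, (|fderiv ℝ φ y (Pi.single j 1)| + |fderiv ℝ φ y (Pi.single l 1)|) * (ε * ‖y‖ + B / s)

/-- SHF. Change of variables in averages.
PROOF. For `Q` near `Q0`, `y' = Q y + b'`: `∫ φ y * f (s • (Q y + b')) = ∫ |det Q|⁻¹ φ (Q⁻¹ (y' - b')) f (s • y') dy'`
(`MeasureTheory.integral_comp...`/`integral_image_eq_integral_abs_det_fderiv_smul`, `Measure.addHaar_image_linearMap`, or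
`integral_map` with `map_linearMap_addHaar_eq_smul_addHaar`, and translation invariance). The function
`G (Q, b') := ∫ | |det Q|⁻¹ φ (Q⁻¹ (y - b')) - |det Q0|⁻¹ φ (Q0⁻¹ (y - v)) | dy` is continuous at `(Q0, v)` (dominated convergence:
uniformly bounded, common compact support; `‖Q⁻¹ (y - b')‖ ≥ (‖y‖ - ‖b'‖)/‖Q‖`) and vanishes there. -/
def S_SHF : Prop := ∀ {m : ℕ} (φ : (Fin m → ℝ) → ℝ) (Q0 : Matrix (Fin m) (Fin m) ℝ) (v : Fin m → ℝ),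
  WF φ → Q0.det ≠ 0 → ∀ K : ℝ, ∀ ε > 0, ∃ δ > 0, ∀ (f : (Fin m → ℝ) → ℝ), Continuous f →
  (∀ x, |f x| ≤ K) → ∀ (Q : Matrix (Fin m) (Fin m) ℝ) (b' : Fin m → ℝ),
  (∀ p q, |Q p q - Q0 p q| ≤ δ) → ‖b' - v‖ ≤ δ → ∀ s > 0,
  |(∫ y, φ y * f (s • (Q *ᵥ y + b'))) -
    ∫ y, (|Q0.det|⁻¹ * φ (Q0⁻¹ *ᵥ (y - v))) * f (s • y)| ≤ ε

/-- UNI. Uniqueness of translation invariant averages.
PROOF. `T s φ := ∫ φ y * f (s • y)`. `T s (φ * ψ)` (convolution) `= ∫ ψ v * T s (φ (· - v)) dv = ∫ φ v * T s (ψ (· - v)) dv` (Fubini and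
the substitution `v ↦ y - v`; everything is continuous with compact support, `f` is bounded). First integral minus
`T s φ * ∫ ψ` is `∫ ψ v * (T s (φ (· - v)) - T s φ) dv → 0` (dominated convergence, bound `2 K ‖φ‖₁ |ψ v|`; `atTop` of `ℝ` is countably
generated; measurability in `v` from continuity). Same with `φ, ψ` exchanged; subtract. -/
def S_UNI : Prop := ∀ {m : ℕ} (f : (Fin m → ℝ) → ℝ) (K : ℝ), Continuous f → (∀ x, |f x| ≤ K) →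
  (∀ φ : (Fin m → ℝ) → ℝ, WF φ → ∀ v : Fin m → ℝ,
    Tendsto (fun s : ℝ => (∫ y, φ (y - v) * f (s • y)) - ∫ y, φ y * f (s • y)) atTop (𝓝 0)) →
  ∀ φ ψ : (Fin m → ℝ) → ℝ, WF φ → WF ψ →
    Tendsto (fun s : ℝ => (∫ y, φ y * f (s • y)) * (∫ y, ψ y) - (∫ y, ψ y * f (s • y)) * ∫ y, φ y)
      atTop (𝓝 0)

/-! ## The Kähler form in real coordinates -/

/-- SMG. Smoothness.
PROOF. `(z, x) ↦ ptK z (Lx lam z x)` is smooth on `Bd c 3 × ℝ²ᵏ` (`lam j` is holomorphic, `DifferentiableOn.contDiffOn`-type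
statement for functions of several complex variables as in the SP files, restriction of scalars) with values in
`tubeK k (Bd c R)` (`3 ≤ R`); compose with the entries of `H` (`KahP.smooth`) and multiply. -/
def S_SMG : Prop := ∀ {b k N : ℕ} (c : Fin N → Cn b) (R : ℝ) (P : Set (Cn b) → TriK b k → Prop)
  (Φ : Cn b → ℝ) (Hf : Cn b → Matrix (Fin k) (Fin k) ℂ) (C : ℝ)
  (H : Cn (b + k) → Matrix (Fin (b + k)) (Fin (b + k)) ℂ), AFolK c R P Φ Hf C →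
  KahP c R P H → ∀ lam, PerK c P lam → ∀ (j l : Fin (2 * k)) (e : Cn b),
  ContDiffOn ℝ ∞ (fun p : Cn b × (Fin (2 * k) → ℝ) => fL H lam p.1 p.2 j l) (Bd c 3 ×ˢ univ) ∧
  ContDiffOn ℝ ∞ (fun p : Cn b × (Fin (2 * k) → ℝ) => rL H lam p.1 p.2 e l) (Bd c 3 ×ˢ univ)

/-- CLG. Closedness in real coordinates. USES: CLR, SMG.
PROOF. `Ψ (z, x) := ptK z (Lx lam z x)`, `E := ptK e (dLx lam z x e)`, `Λ_j := ptK 0 (lam j z)`, `Ω_p (u, v) := Im hermi (H p) u v`.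
`DΨ (e, 0) = E`, `DΨ (0, e_j) = Λ_j`. Product and chain rule: the left side is `(D_E Ω)(Λ_j, Λ_l) + Ω (D_e Λ_j, Λ_l) + Ω (Λ_j, D_e Λ_l)`,
`∂_j (rL · l) = (D_(Λ_j) Ω)(E, Λ_l) + Ω (D_e Λ_j, Λ_l)`, `∂_l (rL · j) = (D_(Λ_l) Ω)(E, Λ_j) + Ω (D_e Λ_l, Λ_j)`, where
`D_e Λ_j = ptK 0 (fderiv ℂ (lam j) z e)`; `Ω` is antisymmetric; `CLR` with `u = Λ_j, v = Λ_l, w = E`. -/
def S_CLG : Prop := ∀ {b k N : ℕ} (c : Fin N → Cn b) (R : ℝ) (P : Set (Cn b) → TriK b k → Prop)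
  (Φ : Cn b → ℝ) (Hf : Cn b → Matrix (Fin k) (Fin k) ℂ) (C : ℝ)
  (H : Cn (b + k) → Matrix (Fin (b + k)) (Fin (b + k)) ℂ), AFolK c R P Φ Hf C →
  KahP c R P H → ∀ lam, PerK c P lam → ∀ z ∈ Bd c 3, ∀ (x : Fin (2 * k) → ℝ) (e : Cn b)
  (j l : Fin (2 * k)),
  fderiv ℝ (fun y => fL H lam y x j l) z e =
    fderiv ℝ (fun y => rL H lam z y e l) x (Pi.single j 1) -
      fderiv ℝ (fun y => rL H lam z y e j) x (Pi.single l 1)

/-- BDG. Bounds. USES: GRQ (for the third item).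
PROOF. Let `z ∈ ball (c i) 2`, `w`. `coc`, `ext`: `t`, `BigK c P i t`, `t.g z ∈ Bd c 1`, `‖t.ap z w‖ < 1`. `KahP.inv` for the vectors
`ptK 0 u`: `hermi (H (ptK z w)) (ptK 0 u) (ptK 0 v) = hermi (H (t.map ..)) (ptK 0 (A u)) (ptK 0 (A v))`, and on the compact set of the
`ptK z' w'`, `z' ∈ ⋃ closedBall (c j) 1`, `‖w'‖ ≤ 1`, `H` is bounded and uniformly positive; `MB A C`, `MB A⁻¹ C` (`abd`).
Third item: `hermi H (ptK e η) (ptK 0 u) = ∑ H_al e_a conj (u_l) + hermi H (ptK 0 η) (ptK 0 u)`. -/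
def S_BDG : Prop := ∀ {b k N : ℕ} (c : Fin N → Cn b) (R : ℝ) (P : Set (Cn b) → TriK b k → Prop)
  (Φ : Cn b → ℝ) (Hf : Cn b → Matrix (Fin k) (Fin k) ℂ) (C : ℝ)
  (H : Cn (b + k) → Matrix (Fin (b + k)) (Fin (b + k)) ℂ), AFolK c R P Φ Hf C →
  KahP c R P H → ∃ K : ℝ, 0 < K ∧ ∀ z ∈ Bd c 2, ∀ w u v : Cn k,
    ‖hermi (H (ptK z w)) (ptK 0 u) (ptK 0 v)‖ ≤ K * ‖u‖ * ‖v‖ ∧
    ‖u‖ ^ 2 ≤ K * (hermi (H (ptK z w)) (ptK 0 u) (ptK 0 u)).re ∧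
    ∀ e : Cn b, ‖hermi (H (ptK z w)) (ptK e v) (ptK 0 u)‖ ≤ K * ((1 + ‖w‖) * ‖e‖ + ‖v‖) * ‖u‖

/-- SUBL. The mixed components grow sublinearly. USES: BDG.
PROOF. `z ∈ closedBall (c i) ρ`, `x`, `e` given; `ε'` small, `ε' ≤ 2 - ρ`; `t`, `B'` from `LimS` for `r = -x`. `G z' := t.A z' *ᵥ
Lx lam z' x + t.β z'` is holomorphic on `ball (c i) 3` and `‖G z'‖ ≤ ‖(A - 1) Lx‖ + ‖Lx + β‖ ≤ (ε' B0 + ε') ‖x‖ + B' =: M` (`PerK.bdd`
with constant `B0`). `t.map (ptK z' (Lx lam z' x)) = ptK (t.g z') (G z')`; differentiate in the direction `e`: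
`fderiv ℂ t.map p (ptK e (dLx lam z x e)) = ptK (fderiv ℂ t.g z e) (fderiv ℂ G z e)`, `‖fderiv ℂ G z e‖ ≤ M ‖e‖` (Cauchy estimate,
`ball z 1 ⊆ ball (c i) 3`), `‖fderiv ℂ t.g z e‖ ≤ C ‖e‖` (`lip`), and `fderiv ℂ t.map p (ptK 0 u) = ptK 0 (A u)`. `KahP.inv` and
`BDG` at `t.g z ∈ ball (c i) 2`, fibre coordinate `G z`: `|rL| ≤ K ((1 + M) C ‖e‖ + M ‖e‖) C B0`. -/
def S_SUBL : Prop := ∀ {b k N : ℕ} (c : Fin N → Cn b) (R : ℝ) (P : Set (Cn b) → TriK b k → Prop)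
  (Φ : Cn b → ℝ) (Hf : Cn b → Matrix (Fin k) (Fin k) ℂ) (C : ℝ)
  (H : Cn (b + k) → Matrix (Fin (b + k)) (Fin (b + k)) ℂ), AFolK c R P Φ Hf C →
  KahP c R P H → ∀ lam, PerK c P lam → LimS c P lam → ∀ i, ∀ ρ < (2 : ℝ), ∀ ε > 0, ∃ B : ℝ, 0 ≤ B ∧
  ∀ z ∈ closedBall (c i) ρ, ∀ x e l, |rL H lam z x e l| ≤ (ε * ‖x‖ + B) * ‖e‖

/-- VARG. The averages do not depend on `z`. USES: SMG, CLG, SUBL, STK.
PROOF. `z, z' ∈ closedBall (c i) ρ`, `e := z' - z`, `z_τ := z + τ e`, `f τ x := fL H lam z_τ x j l`, `rl τ x := rL H lam z_τ x e l`, `rj`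
same with `j`: the hypotheses of `STK` (`δ` small; `closedBall` is convex), with `ε ‖e‖`, `B ‖e‖`, `‖e‖ ≤ 4`. The right side is
`≤ 4 ε ∫ (|∂_j φ| + |∂_l φ|) ‖y‖ + (4 B / s) ∫ (|∂_j φ| + |∂_l φ|)`. -/
def S_VARG : Prop := ∀ {b k N : ℕ} (c : Fin N → Cn b) (R : ℝ) (P : Set (Cn b) → TriK b k → Prop)
  (Φ : Cn b → ℝ) (Hf : Cn b → Matrix (Fin k) (Fin k) ℂ) (C : ℝ)
  (H : Cn (b + k) → Matrix (Fin (b + k)) (Fin (b + k)) ℂ), AFolK c R P Φ Hf C →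
  KahP c R P H → ∀ lam, PerK c P lam → LimS c P lam → ∀ (φ : (Fin (2 * k) → ℝ) → ℝ), WF φ →
  ∀ i, ∀ ρ < (2 : ℝ), ∀ ε > 0, ∃ s₀ > 0, ∀ s ≥ s₀, ∀ z ∈ closedBall (c i) ρ,
  ∀ z' ∈ closedBall (c i) ρ, ∀ j l, |TN H lam φ z s j l - TN H lam φ z' s j l| ≤ ε

/-- TRF. Transformation of the components.
PROOF. `t.map (ptK z (Lx lam z x)) = ptK (t.g z) (t.A z *ᵥ Lx lam z x + t.β z) = ptK (t.g z) (Lx lam (t.g z) (Q *ᵥ x + y))`,
`fderiv ℂ t.map p (ptK 0 u) = ptK 0 (t.A z *ᵥ u)`; `KahP.inv` for `ptK 0 (lam j z)`, `ptK 0 (lam l z)`; expand (real coefficients). -/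
def S_TRF : Prop := ∀ {b k N : ℕ} (c : Fin N → Cn b) (R : ℝ) (P : Set (Cn b) → TriK b k → Prop)
  (Φ : Cn b → ℝ) (Hf : Cn b → Matrix (Fin k) (Fin k) ℂ) (C : ℝ)
  (H : Cn (b + k) → Matrix (Fin (b + k)) (Fin (b + k)) ℂ), AFolK c R P Φ Hf C →
  KahP c R P H → ∀ (lam : Fin (2 * k) → Cn b → Cn k) (U : Set (Cn b)) (t : TriK b k), P U t →
  ∀ z ∈ U, ∀ (Q : Matrix (Fin (2 * k)) (Fin (2 * k)) ℝ) (y : Fin (2 * k) → ℝ),
  (∀ j, t.A z *ᵥ lam j z = ∑ l, ((Q l j : ℝ) : ℂ) • lam l (t.g z)) → Lx lam (t.g z) y = t.β z →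
  ∀ x j l, fL H lam z x j l = ∑ p, ∑ q, Q p j * Q q l * fL H lam (t.g z) (Q *ᵥ x + y) p q

/-- TRLG. The averages are translation invariant in the limit. USES: BDG, TRF, SHF, VARG, SMG (continuity).
PROOF. Let `z ∈ ball (c i) 2`, `ρ := (‖z - c i‖ + 2)/2`, `s` large, `ε'` small, `t` from `LimS` for `r = s • v`; `z1 := t.g z ∈
closedBall (c i) ρ`. `PerK.trans` at `z`: `Q` with `A lam_j z = ∑ Q_lj lam_l z1`; `y` with `Lx lam z1 y = t.β z` (`Lx lam z1` is an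
injective real linear map between spaces of the same real dimension, `PerK.bdd`, so surjective).
`Lx z1 ((Q - 1) x) = (A - 1) Lx z x + (Lx z x - Lx z1 x)`, `lam` is Lipschitz on `ball (c i) 2` (Cauchy): `|Q_pq - δ_pq| ≤ K1 ε'`;
`Lx z1 (y - s v) = (t.β z - s Lx z v) + s (Lx z v - Lx z1 v)`: `‖y/s - v‖ ≤ K1 (ε' ‖v‖ + B'/s)`. `TRF` and `|fL| ≤ K2` (`BDG`, `PerK.bdd`):
`|fL z x j l - fL z1 (Q x + y) j l| ≤ K3 ε'` for all `x`. So `|TN φ z s - ∫ φ u * fL z1 (s • (Q u + y/s))| ≤ K3 ε' ∫ |φ|`; `SHF` with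
`Q0 = 1` and `v`: the last integral is within `ε` of `TN (φ (· - v)) z1 s`, which is within `ε` of `TN (φ (· - v)) z s` (`VARG`). -/
def S_TRLG : Prop := ∀ {b k N : ℕ} (c : Fin N → Cn b) (R : ℝ) (P : Set (Cn b) → TriK b k → Prop)
  (Φ : Cn b → ℝ) (Hf : Cn b → Matrix (Fin k) (Fin k) ℂ) (C : ℝ)
  (H : Cn (b + k) → Matrix (Fin (b + k)) (Fin (b + k)) ℂ), AFolK c R P Φ Hf C →
  KahP c R P H → ∀ lam, PerK c P lam → LimS c P lam → ∀ (φ : (Fin (2 * k) → ℝ) → ℝ), WF φ →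
  ∀ z ∈ Bd c 2, ∀ (v : Fin (2 * k) → ℝ) (j l : Fin (2 * k)),
  Tendsto (fun s : ℝ => TN H lam (fun y => φ (y - v)) z s j l - TN H lam φ z s j l) atTop (𝓝 0)

/-- ELIM. The limit of the averages. USES: BDG, SMG, TRF, SHF, UNI, VARG, TRLG.
PROOF. `χ` a smooth bump function with `∫ χ = 1`, `χ ≥ 0`. The sequences `n ↦ TN H lam χ (c i) n j l` are bounded (`BDG`): a common
strictly increasing sequence `nn` along which they all converge, `E i j l := lim` (finite product; Bolzano-Weierstrass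
`tendsto_subseq_of_bounded`). First item: `VARG` (with `φ = χ`, `z` and `c i` in `closedBall (c i) ρ`). Second item: `z ∈ ball (c i) 2`,
`t.g z ∈ ball (c j) 2`, `A lam = (lam ∘ g) Q` at `z`, `y` with `Lx lam (t.g z) y = t.β z`. `TRF`: `TN χ z s p q = ∑ Q_(p'p) Q_(q'q)
∫ χ u * fL (g z) (s • (Q u + y/s)) p' q'`; by `SHF` (`Q0 = Q`, `v = 0`; `det Q ≠ 0` because `A` and the `Lx` are injective) the
integral is, up to `o(1)`, `TN χ_Q (g z) s p' q'`, `χ_Q u := |det Q|⁻¹ χ (Q⁻¹ u)`, `∫ χ_Q = 1`, and `UNI` (with `TRLG`) for `χ_Q`, `χ`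
gives `TN χ_Q - TN χ → 0`. Limits along `nn`. -/
def S_ELIM : Prop := ∀ {b k N : ℕ} (c : Fin N → Cn b) (R : ℝ) (P : Set (Cn b) → TriK b k → Prop)
  (Φ : Cn b → ℝ) (Hf : Cn b → Matrix (Fin k) (Fin k) ℂ) (C : ℝ)
  (H : Cn (b + k) → Matrix (Fin (b + k)) (Fin (b + k)) ℂ), AFolK c R P Φ Hf C →
  KahP c R P H → ∀ lam, PerK c P lam → LimS c P lam →
  ∃ (χ : (Fin (2 * k) → ℝ) → ℝ) (nn : ℕ → ℕ) (E : Fin N → Matrix (Fin (2 * k)) (Fin (2 * k)) ℝ),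
    WF χ ∧ (∀ y, 0 ≤ χ y) ∧ ∫ y, χ y = 1 ∧ StrictMono nn ∧
    (∀ i, ∀ z ∈ ball (c i) 2, ∀ j l,
      Tendsto (fun n => TN H lam χ z (nn n) j l) atTop (𝓝 (E i j l))) ∧
    ∀ U t, P U t → ∀ z ∈ U, ∀ i j, z ∈ ball (c i) 2 → t.g z ∈ ball (c j) 2 →
      ∀ Q : Matrix (Fin (2 * k)) (Fin (2 * k)) ℝ,
        (∀ p, t.A z *ᵥ lam p z = ∑ l, ((Q l p : ℝ) : ℂ) • lam l (t.g z)) → E i = Qᵀ * E j * Q

/-- KLIM. The limit is of type (1,1) and positive. USES: BDG, SMG, ELIM (as a hypothesis here).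
PROOF. `F x := fbl (H (ptK z (Lx lam z x)))` has bounded continuous entries. The matrices `K_n := ∫ χ y • F (nn n • y)` are
bounded; a subsequence converges to `K`. `hermi (K_n) u u = ∫ χ y * hermi (F ..) u u` is real and `≥ c1 ‖u‖²` (`BDG`, `∫ χ = 1`), so
`K` is positive definite. `fL z x j l = Im hermi (F x) (lam j z) (lam l z)`, integrate, limit. -/
def S_KLIM : Prop := ∀ {b k N : ℕ} (c : Fin N → Cn b) (R : ℝ) (P : Set (Cn b) → TriK b k → Prop)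
  (Φ : Cn b → ℝ) (Hf : Cn b → Matrix (Fin k) (Fin k) ℂ) (C : ℝ)
  (H : Cn (b + k) → Matrix (Fin (b + k)) (Fin (b + k)) ℂ), AFolK c R P Φ Hf C →
  KahP c R P H → ∀ lam, PerK c P lam →
  ∀ (χ : (Fin (2 * k) → ℝ) → ℝ) (nn : ℕ → ℕ), WF χ → (∀ y, 0 ≤ χ y) → ∫ y, χ y = 1 →
  ∀ z ∈ Bd c 2, ∀ E : Matrix (Fin (2 * k)) (Fin (2 * k)) ℝ,
  (∀ j l, Tendsto (fun n => TN H lam χ z (nn n) j l) atTop (𝓝 (E j l))) →
  ∃ K : Matrix (Fin k) (Fin k) ℂ, K.PosDef ∧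
    ∀ j l, E j l = (∑ p, ∑ q, K p q * lam j z p * conj (lam l z q)).im

/-- LSK. The uniform form of the approximation implies the sequential one (`LimK`).
PROOF. `ε_n := 1/(n+1)`, `B_n` from `LimS`, `s_n` a natural number `≥ n + 1` with `B_n ≤ ε_n s_n`, `t_n` for the vector `s_n • r`:
`‖β - s_n ∑ r_j lam_j‖ ≤ ε_n s_n ‖r‖ + B_n ≤ ε_n (‖r‖ + 1) s_n`. -/
def S_LSK : Prop := ∀ {b k N : ℕ} (c : Fin N → Cn b) (P : Set (Cn b) → TriK b k → Prop)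
  (lam : Fin (2 * k) → Cn b → Cn k), LimS c P lam → LimK c P lam

/-- POLG. The polarization, general case. USES: ELIM, KLIM, OMA.
PROOF. `Om i := (E i)⁻¹` (`ELIM`). `z ∈ ball (c i) 2`: `K` from `KLIM`, `OMA` with `L = Lm lam z`, `H = K`, `E = E i` (independence over
`ℝ`: `PerK.bdd`): `det (E i) ≠ 0` and `PolM (Lm lam z) (Om i)`, i.e. `skew`, `rel`, `pos` (`Hiv lam (Om i) z = hiM (Lm lam z) (Om i)` by
`rfl`). `trans`: `E i = Qᵀ E j Q`, so `det Q ≠ 0` and `Q (E i)⁻¹ Qᵀ = (E j)⁻¹`. -/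
def S_POLG : Prop := ∀ {b k N : ℕ} (c : Fin N → Cn b) (R : ℝ) (P : Set (Cn b) → TriK b k → Prop)
  (Φ : Cn b → ℝ) (Hf : Cn b → Matrix (Fin k) (Fin k) ℂ) (C : ℝ)
  (H : Cn (b + k) → Matrix (Fin (b + k)) (Fin (b + k)) ℂ), AFolK c R P Φ Hf C →
  KahP c R P H → ∀ lam : Fin (2 * k) → Cn b → Cn k, PerK c P lam → LimS c P lam →
  ∃ Om : Fin N → Matrix (Fin (2 * k)) (Fin (2 * k)) ℝ, PolK c P lam Om

/-- PERG. The goal of Section E for every invariant Kähler metric. -/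
def S_PERG : Prop := ∀ {b k N : ℕ} (c : Fin N → Cn b) (R : ℝ) (P : Set (Cn b) → TriK b k → Prop)
  (Φ : Cn b → ℝ) (Hf : Cn b → Matrix (Fin k) (Fin k) ℂ) (C : ℝ)
  (H : Cn (b + k) → Matrix (Fin (b + k)) (Fin (b + k)) ℂ), AFolK c R P Φ Hf C →
  KahP c R P H → ∃ (lam : Fin (2 * k) → Cn b → Cn k)
    (Om : Fin N → Matrix (Fin (2 * k)) (Fin (2 * k)) ℝ), PerK c P lam ∧ PolK c P lam Om

theorem perg (hL : S_LAMS) (hP : S_POLG) : S_PERG := by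
  intro b k N c R P Φ Hf C H hA hK
  obtain ⟨lam, h1, h2⟩ := hL c R P Φ Hf C hA
  obtain ⟨Om, h3⟩ := hP c R P Φ Hf C H hA hK lam h1 h2
  exact ⟨lam, Om, h1, h3⟩

theorem perk_of_perg (h : S_PERG) : S_PERK := fun c R P Φ Hf C H hA hK _ =>
  h c R P Φ Hf C H hA hK

end Pool.Agent.Helper36.RK
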