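import Pool.Agent.Helper36.RK.GoalsG
import Pool.Agent.Helper2.RK.CLR
import Pool.Agent.Helper2.RK.UNI
import Pool.Agent.Helper16.RK.ELIM
import Pool.Agent.Helper16.RK.SUBL
import Pool.Agent.Helper25.RK.POLG
import Pool.Agent.Helper35.RK.LSK
import Pool.Agent.Helper35.RK.SMG
import Pool.Agent.Helper37.RK.SHF
import Pool.Agent.Helper40.RK.KLIM
import Pool.Agent.Helper56.RK.BDG
import Pool.Agent.Helper58.RK.TRF
import Pool.Agent.Helper75.RK.CLG
import Pool.Agent.Helper75.RK.STK
import Pool.Agent.Helper81.RK.OMA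
import Pool.Agent.Helper93.RK.TRLG

/-! # RK, Section E: assembly of the general polarization -/

namespace Pool.Agent.Helper36.RK

open Pool.Agent.Helper10.SP Pool.Agent.Helper95.RK

theorem g_bdg : S_BDG := Pool.Agent.Helper56.RK.bdg

theorem g_trlg (hV : S_VARG) : S_TRLG := Pool.Agent.Helper93.RK.trlg g_bdg
  Pool.Agent.Helper58.RK.trf Pool.Agent.Helper37.RK.shf hV Pool.Agent.Helper35.RK.smg

theorem g_elim (hV : S_VARG) : S_ELIM := Pool.Agent.Helper16.RK.elim g_bdg
  Pool.Agent.Helper35.RK.smg Pool.Agent.Helper58.RK.trf Pool.Agent.Helper37.RK.shf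
  Pool.Agent.Helper2.RK.uni hV (g_trlg hV)

theorem g_polg (hV : S_VARG) : S_POLG := Pool.Agent.Helper25.RK.polg (g_elim hV)
  (Pool.Agent.Helper40.RK.klim g_bdg) Pool.Agent.Helper81.RK.oma

/-- **Section E.** Periods and polarization, for every invariant Kähler metric. -/
theorem g_perg (hV : S_VARG) (hL : S_LAMS) : S_PERG := perg hL (g_polg hV)

end Pool.Agent.Helper36.RK
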