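import Pool.Agent.Helper40.RK.GoalsE

open Complex Metric Set Filter Topology MeasureTheory
open scoped ContDiff ComplexConjugate

namespace Pool.Agent.Helper36.RK

open Pool.Agent.Helper95.Lin Pool.Agent.Helper10.SP Pool.Agent.Helper95.RK Pool.Agent.Helper40.RK

section gen

variable {E V : Type*} [NormedAddCommGroup E] [NormedSpace ℝ E] [NormedAddCommGroup V]
  [NormedSpace ℝ V]

theorem hyerk_mul {X : Type*} {F : E → X → V} {ε K : ℝ}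
    (h : ∀ w w' x, ‖F (w + w') x - F w x - F w' x‖ ≤ ε * ‖w'‖ + K) (w : E) (x : X) (n : ℕ)
    (hK : 0 ≤ ε * ‖w‖ + K) :
    ‖F (((n + 1 : ℕ) : ℝ) • w) x - ((n + 1 : ℕ) : ℝ) • F w x‖ ≤ (n + 1 : ℕ) * (ε * ‖w‖ + K) := by
  induction n with
  | zero => simpa using hK
  | succ n ih =>
    have h1 := h (((n + 1 : ℕ) : ℝ) • w) w x
    have e1 : ((n + 1 + 1 : ℕ) : ℝ) • w = ((n + 1 : ℕ) : ℝ) • w + w := by
      push_cast; simp only [add_smul, one_smul]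
    have e2 : F (((n + 1 + 1 : ℕ) : ℝ) • w) x - ((n + 1 + 1 : ℕ) : ℝ) • F w x
        = (F (((n + 1 : ℕ) : ℝ) • w + w) x - F (((n + 1 : ℕ) : ℝ) • w) x - F w x)
          + (F (((n + 1 : ℕ) : ℝ) • w) x - ((n + 1 : ℕ) : ℝ) • F w x) := by
      rw [e1]; push_cast; simp only [add_smul, one_smul]; abel
    rw [e2]
    refine (norm_add_le _ _).trans ?_
    push_cast at *
    linarith

theorem hyerk_cmp {X : Type*} {F : E → X → V} {ε K : ℝ} (hε : 0 ≤ ε) (hK : 0 ≤ K)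
    (h : ∀ w w' x, ‖F (w + w') x - F w x - F w' x‖ ≤ ε * ‖w'‖ + K) (w : E) (x : X) (n m : ℕ) :
    ‖((((n + 1 : ℕ) : ℝ) * ((m + 1 : ℕ) : ℝ))⁻¹ • F (((n + 1 : ℕ) : ℝ) • ((m + 1 : ℕ) : ℝ) • w) x)
      - (((m + 1 : ℕ) : ℝ))⁻¹ • F (((m + 1 : ℕ) : ℝ) • w) x‖ ≤ ε * ‖w‖ + K / (m + 1 : ℕ) := by
  have hm : (0 : ℝ) < (m + 1 : ℕ) := by positivity
  have hn : (0 : ℝ) < (n + 1 : ℕ) := by positivity
  have h1 := hyerk_mul h (((m + 1 : ℕ) : ℝ) • w) x n (by positivity)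
  have e : ((((n + 1 : ℕ) : ℝ) * ((m + 1 : ℕ) : ℝ))⁻¹ • F (((n + 1 : ℕ) : ℝ) • ((m + 1 : ℕ) : ℝ) • w) x)
      - (((m + 1 : ℕ) : ℝ))⁻¹ • F (((m + 1 : ℕ) : ℝ) • w) x
      = (((n + 1 : ℕ) : ℝ) * ((m + 1 : ℕ) : ℝ))⁻¹ • (F (((n + 1 : ℕ) : ℝ) • ((m + 1 : ℕ) : ℝ) • w) x
        - ((n + 1 : ℕ) : ℝ) • F (((m + 1 : ℕ) : ℝ) • w) x) := by
    have e0 : (((n + 1 : ℕ) : ℝ) * ((m + 1 : ℕ) : ℝ))⁻¹ • ((n + 1 : ℕ) : ℝ) • F (((m + 1 : ℕ) : ℝ) • w) x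
        = (((m + 1 : ℕ) : ℝ))⁻¹ • F (((m + 1 : ℕ) : ℝ) • w) x := by
      rw [smul_smul]
      congr 1
      field_simp
    rw [smul_sub, e0]
  rw [e, norm_smul, Real.norm_of_nonneg (by positivity), inv_mul_le_iff₀ (by positivity)]
  refine h1.trans ?_
  rw [norm_smul, Real.norm_of_nonneg hm.le]
  have : (((n + 1 : ℕ) : ℝ) * ((m + 1 : ℕ) : ℝ)) * (ε * ‖w‖ + K / (m + 1 : ℕ))
      = (n + 1 : ℕ) * (ε * ((m + 1 : ℕ) * ‖w‖) + K) := by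
    field_simp
  rw [this]

theorem hyerk_gen [CompleteSpace V] (X : Type*) (F : E → X → V)
    (hF : ∀ ε > 0, ∃ K : ℝ, ∀ w w' x, ‖F (w + w') x - F w x - F w' x‖ ≤ ε * ‖w'‖ + K)
    (hK₀ : ∃ K : ℝ, ∀ w x, ‖F w x‖ ≤ K * (1 + ‖w‖)) :
    ∃ Λ : E → X → V, (∀ w w' x, Λ (w + w') x = Λ w x + Λ w' x) ∧
      (∀ (r : ℝ) w x, Λ (r • w) x = r • Λ w x) ∧
      ∀ ε > 0, ∃ K : ℝ, ∀ w x, ‖F w x - Λ w x‖ ≤ ε * ‖w‖ + K := by
  obtain ⟨K₀, hK₀⟩ := hK₀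
  -- nonnegative constants
  have hF' : ∀ ε > 0, ∃ K : ℝ, 0 ≤ K ∧ ∀ w w' x, ‖F (w + w') x - F w x - F w' x‖ ≤ ε * ‖w'‖ + K := by
    intro ε hε
    obtain ⟨K, hK⟩ := hF ε hε
    exact ⟨max K 0, le_max_right _ _, fun w w' x => (hK w w' x).trans (by
      have := le_max_left K 0; linarith)⟩
  -- the Cauchy property
  have hcau : ∀ w x, CauchySeq fun n : ℕ => (((n + 1 : ℕ) : ℝ))⁻¹ • F (((n + 1 : ℕ) : ℝ) • w) x := by
    intro w x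
    rw [Metric.cauchySeq_iff]
    intro δ hδ
    obtain ⟨K, hK0, hK⟩ := hF' (δ / (8 * (‖w‖ + 1))) (by positivity)
    obtain ⟨N, hN⟩ := exists_nat_gt (8 * K / δ)
    have key : ∀ n ≥ N, ∀ m ≥ N,
        ‖((((n + 1 : ℕ) : ℝ) * ((m + 1 : ℕ) : ℝ))⁻¹ •
          F (((n + 1 : ℕ) : ℝ) • ((m + 1 : ℕ) : ℝ) • w) x)
          - (((m + 1 : ℕ) : ℝ))⁻¹ • F (((m + 1 : ℕ) : ℝ) • w) x‖ ≤ δ / 4 := by
      intro n _ m hm
      refine (hyerk_cmp (by positivity) hK0 hK w x n m).trans ?_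
      have a1 : δ / (8 * (‖w‖ + 1)) * ‖w‖ ≤ δ / 8 := by
        rw [div_mul_eq_mul_div, div_le_div_iff₀ (by positivity) (by positivity)]
        nlinarith [norm_nonneg w]
      have a2 : K / (m + 1 : ℕ) ≤ δ / 8 := by
        have hmN : (N : ℝ) ≤ m := by exact_mod_cast hm
        rw [div_le_div_iff₀ (by positivity) (by positivity)]
        rw [div_lt_iff₀ hδ] at hN
        push_cast
        nlinarith
      linarith
    refine ⟨N, fun m hm n hn => ?_⟩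
    rw [dist_eq_norm]
    have h1 := key n hn m hm
    have h2 := key m hm n hn
    have e : ((m + 1 : ℕ) : ℝ) • ((n + 1 : ℕ) : ℝ) • w = ((n + 1 : ℕ) : ℝ) • ((m + 1 : ℕ) : ℝ) • w := by
      rw [smul_comm]
    have e' : ((m + 1 : ℕ) : ℝ) * (n + 1 : ℕ) = (n + 1 : ℕ) * (m + 1 : ℕ) := by ring
    rw [e, e'] at h2
    rw [← sub_sub_sub_cancel_left (((n + 1 : ℕ) : ℝ)⁻¹ • F (((n + 1 : ℕ) : ℝ) • w) x)
      (((m + 1 : ℕ) : ℝ)⁻¹ • F (((m + 1 : ℕ) : ℝ) • w) x)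
      ((((n + 1 : ℕ) : ℝ) * ((m + 1 : ℕ) : ℝ))⁻¹ •
          F (((n + 1 : ℕ) : ℝ) • ((m + 1 : ℕ) : ℝ) • w) x)]
    refine (norm_sub_le _ _).trans_lt ?_
    linarith
  choose Λ hΛ using fun w x => cauchySeq_tendsto_of_complete (hcau w x)
  -- (2)
  have hcmp : ∀ ε > 0, ∃ K : ℝ, ∀ w x, ‖F w x - Λ w x‖ ≤ ε * ‖w‖ + K := by
    intro ε hε
    obtain ⟨K, hK0, hK⟩ := hF' ε hε
    refine ⟨K, fun w x => ?_⟩
    rw [norm_sub_rev]
    have h1 : Tendsto (fun n : ℕ => ‖(((n + 1 : ℕ) : ℝ))⁻¹ • F (((n + 1 : ℕ) : ℝ) • w) x - F w x‖)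
        atTop (𝓝 ‖Λ w x - F w x‖) := ((hΛ w x).sub_const _).norm
    refine le_of_tendsto h1 (Filter.Eventually.of_forall fun n => ?_)
    have := hyerk_cmp hε.le hK0 hK w x n 0
    simpa using this
  -- additivity
  have hnat : Tendsto (fun n : ℕ => ((n + 1 : ℕ) : ℝ)) atTop atTop := by
    exact tendsto_natCast_atTop_atTop.comp (tendsto_add_atTop_nat 1)
  have hadd : ∀ w w' x, Λ (w + w') x = Λ w x + Λ w' x := by
    intro w w' x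
    rw [← sub_eq_zero, ← norm_eq_zero]
    refine le_antisymm (le_of_forall_pos_le_add fun δ hδ => ?_) (norm_nonneg _)
    obtain ⟨K, hK0, hK⟩ := hF' (δ / (‖w'‖ + 1)) (by positivity)
    have h1 : Tendsto (fun n : ℕ => ‖(((n + 1 : ℕ) : ℝ))⁻¹ • F (((n + 1 : ℕ) : ℝ) • (w + w')) x -
        ((((n + 1 : ℕ) : ℝ))⁻¹ • F (((n + 1 : ℕ) : ℝ) • w) x +
          (((n + 1 : ℕ) : ℝ))⁻¹ • F (((n + 1 : ℕ) : ℝ) • w') x)‖) atTop
        (𝓝 ‖Λ (w + w') x - (Λ w x + Λ w' x)‖) :=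
      ((hΛ (w + w') x).sub ((hΛ w x).add (hΛ w' x))).norm
    have h2 : Tendsto (fun n : ℕ => δ / (‖w'‖ + 1) * ‖w'‖ + K / (n + 1 : ℕ)) atTop
        (𝓝 (δ / (‖w'‖ + 1) * ‖w'‖ + 0)) :=
      tendsto_const_nhds.add (tendsto_const_nhds.div_atTop hnat)
    have h3 := le_of_tendsto_of_tendsto' h1 h2 (fun n => by
      have hn : (0 : ℝ) < (n + 1 : ℕ) := by positivity
      have e : (((n + 1 : ℕ) : ℝ))⁻¹ • F (((n + 1 : ℕ) : ℝ) • (w + w')) x -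
          ((((n + 1 : ℕ) : ℝ))⁻¹ • F (((n + 1 : ℕ) : ℝ) • w) x +
            (((n + 1 : ℕ) : ℝ))⁻¹ • F (((n + 1 : ℕ) : ℝ) • w') x)
          = (((n + 1 : ℕ) : ℝ))⁻¹ • (F (((n + 1 : ℕ) : ℝ) • w + ((n + 1 : ℕ) : ℝ) • w') x
            - F (((n + 1 : ℕ) : ℝ) • w) x - F (((n + 1 : ℕ) : ℝ) • w') x) := by
        rw [smul_add (((n + 1 : ℕ)) : ℝ) w w', smul_sub, smul_sub]
        abel
      rw [e, norm_smul, Real.norm_of_nonneg (by positivity), inv_mul_le_iff₀ hn]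
      refine (hK _ _ _).trans ?_
      rw [norm_smul, Real.norm_of_nonneg hn.le]
      have : ((n + 1 : ℕ) : ℝ) * (δ / (‖w'‖ + 1) * ‖w'‖ + K / (n + 1 : ℕ))
          = δ / (‖w'‖ + 1) * ((n + 1 : ℕ) * ‖w'‖) + K := by
        field_simp
      rw [this])
    refine h3.trans ?_
    have : δ / (‖w'‖ + 1) * ‖w'‖ ≤ δ := by
      rw [div_mul_eq_mul_div, div_le_iff₀ (by positivity)]
      nlinarith [norm_nonneg w']
    linarith
  have hbd : ∀ w x, ‖Λ w x‖ ≤ |K₀| * ‖w‖ := by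
    intro w x
    have h1 : Tendsto (fun n : ℕ => ‖(((n + 1 : ℕ) : ℝ))⁻¹ • F (((n + 1 : ℕ) : ℝ) • w) x‖) atTop
      (𝓝 ‖Λ w x‖) := (hΛ w x).norm
    have h2 : Tendsto (fun n : ℕ => |K₀| * ‖w‖ + |K₀| / (n + 1 : ℕ)) atTop
      (𝓝 (|K₀| * ‖w‖ + 0)) := tendsto_const_nhds.add (tendsto_const_nhds.div_atTop hnat)
    have h3 := le_of_tendsto_of_tendsto' h1 h2 (fun n => by
      have hn : (0 : ℝ) < (n + 1 : ℕ) := by positivity
      rw [norm_smul, Real.norm_of_nonneg (by positivity), inv_mul_le_iff₀ hn]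
      refine (hK₀ _ _).trans ?_
      rw [norm_smul, Real.norm_of_nonneg hn.le]
      have e : ((n + 1 : ℕ) : ℝ) * (|K₀| * ‖w‖ + |K₀| / (n + 1 : ℕ))
          = |K₀| * (1 + (n + 1 : ℕ) * ‖w‖) := by
        field_simp; ring
      rw [e]
      exact mul_le_mul_of_nonneg_right (le_abs_self _) (by positivity))
    simpa using h3
  refine ⟨Λ, hadd, ?_, hcmp⟩
  intro r w x
  let f : E →+ V := AddMonoidHom.mk' (fun w => Λ w x) (fun a b => hadd a b x)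
  have hfc : Continuous f :=
    AddMonoidHomClass.continuous_of_bound f |K₀| (fun w => hbd w x)
  exact (f.toRealLinearMap hfc).map_smul r w

end gen

/-- HYERK: almost additive maps. -/
theorem hyerk : S_HYERK := by
  intro k X F hF hK
  have hsm : ∀ (r : ℝ) (w : Cn k), ((r : ℝ) : ℂ) • w = r • w := by
    intro r w
    ext i
    simp [Complex.real_smul]
  obtain ⟨Λ, h1, h2, h3⟩ := hyerk_gen X F hF hK
  exact ⟨Λ, h1, fun r w x => by rw [hsm, hsm]; exact h2 r w x, h3⟩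

end Pool.Agent.Helper36.RK
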