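import Pool.Agent.Helper36.RK.GoalsI
import Pool.Agent.Helper94.RK.ALGP
import Pool.Agent.Helper35.RK.HSP
import Pool.Agent.Helper35.RK.KNEG
import Pool.Agent.Helper35.RK.XIK
import Pool.Agent.Helper35.RK.IMK
import Pool.Agent.Helper35.RK.RLTK
import Pool.Agent.Helper61.RK.TRP
import Pool.Agent.Helper93.RK.DIFP
import Pool.Agent.Helper93.RK.GINS
import Pool.Agent.Helper29.RK.LDET
import Pool.Agent.Helper32.RK.XI0
import Pool.Agent.Helper8.RK.KCOM
import Pool.Agent.Helper8.RK.KNOR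
import Pool.Agent.Helper8.RK.RLT0
import Pool.Agent.Helper8.RK.BTK
import Pool.Agent.Helper8.RK.MUK
import Pool.Agent.Helper70.RK.LIFT
import Pool.Agent.Helper70.RK.GIND0
import Pool.Agent.Helper89.RK.IMB
import Pool.Agent.Helper85.RK.BIDK
import Pool.Agent.Helper37.RK.HVR0
import Pool.Agent.Helper37.RK.BOCFK
import Pool.Agent.Helper40.RK.ZZK
import Pool.Agent.Helper77.RK.RK1K
import Pool.Agent.Helper79.RK.NPSH
import Pool.Agent.Helper10.SP.WIRT
import Pool.Agent.Helper59.SP.WCH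
import Pool.Agent.Helper90.SP.LMF
import Pool.Agent.Helper87.SP.TENS
import Pool.Agent.Helper97.SP.BNAT
import Pool.Agent.Helper58.SP.PIO

/-! # RK, Section I: assembly -/

namespace Pool.Agent.Helper36.RK

open Pool.Agent.Helper10.SP Pool.Agent.Helper95.RK

universe u

theorem a_lmf : S_LMF := Pool.Agent.Helper90.SP.lmf Pool.Agent.Helper10.SP.Wirt.wirt

theorem a_algp : S_ALGP := Pool.Agent.Helper94.RK.algp

theorem a_hsp : S_HSP := Pool.Agent.Helper35.RK.hsp

theorem a_trp : S_TRP := Pool.Agent.Helper61.RK.trp a_algp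

theorem a_difp : S_DIFP := Pool.Agent.Helper93.RK.difp

theorem a_ldet : S_LDET := Pool.Agent.Helper29.RK.ldet a_algp a_difp

theorem a_btp : S_BTP := Pool.Agent.Helper61.RK.btp a_algp a_hsp a_difp

theorem a_btr : S_BTR := Pool.Agent.Helper61.RK.btr a_algp a_trp

theorem a_xi0 : S_XI0 := Pool.Agent.Helper32.RK.xi0 a_algp a_difp

theorem a_kcom : S_KCOM := Pool.Agent.Helper8.RK.kcom a_algp

theorem a_knor : S_KNOR := Pool.Agent.Helper8.RK.knor a_algp

theorem a_kneg : S_KNEG := Pool.Agent.Helper35.RK.kneg a_algp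

theorem a_lift : S_LIFT := Pool.Agent.Helper70.RK.lift a_kcom a_knor a_kneg

theorem a_imb : S_IMB := Pool.Agent.Helper89.RK.imb a_algp

theorem a_gins : S_GINS := Pool.Agent.Helper93.RK.gins a_hsp

theorem a_bidk : S_BIDK := Pool.Agent.Helper85.RK.bidk Pool.Agent.Helper10.SP.Wirt.wirt a_lmf

theorem a_rlt0 : S_RLT0 := Pool.Agent.Helper8.RK.rlt0 Pool.Agent.Helper10.SP.Wirt.wirt a_lmf

theorem a_gind0 : S_GIND0 := Pool.Agent.Helper70.RK.gind0 a_lmf

theorem a_hvr0 : S_HVR0 := Pool.Agent.Helper37.RK.hvr0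

theorem a_btk : S_BTK := Pool.Agent.Helper8.RK.btk a_btr

theorem a_muk : S_MUK := Pool.Agent.Helper8.RK.muk a_difp a_ldet a_btk

theorem a_xik : S_XIK := Pool.Agent.Helper35.RK.xik a_xi0

theorem a_imk : S_IMK := Pool.Agent.Helper35.RK.imk a_xik a_lift a_imb

theorem a_rltk : S_RLTK := Pool.Agent.Helper35.RK.rltk a_muk a_hvr0 a_rlt0 a_imk a_btp

theorem a_zzk : S_ZZK := Pool.Agent.Helper40.RK.zzk a_btk a_difp

theorem a_npsh : S_NPSH := Pool.Agent.Helper79.RK.npsh a_algp a_hsp a_difp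

theorem a_rk1k (hDET : S_DETCK.{u}) : S_RK1K.{u} :=
  Pool.Agent.Helper77.RK.rk1k a_btk a_imk hDET a_difp a_hsp a_gins a_npsh

theorem a_bnat : S_BNAT := Pool.Agent.Helper97.SP.bnat Pool.Agent.Helper10.SP.Wirt.wirt
  Pool.Agent.Helper59.SP.wch (Pool.Agent.Helper58.SP.pio Pool.Agent.Helper10.SP.Wirt.wirt
    Pool.Agent.Helper59.SP.wch)

theorem a_bocfk (hDET : S_DETCK.{u}) (hINT : S_INTBK.{u}) : S_BOCFK.{u} :=
  Pool.Agent.Helper37.RK.bocfk a_lmf a_muk hDET a_rltk a_gind0 hINT Pool.Agent.Helper87.SP.tens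
    a_bidk a_btp a_bnat

/-- **Section I.** There are no commuting generators, so the pseudogroup is discrete. -/
theorem a_disfk (hFG : S_FGK) (hDET : S_DETCK.{u}) (hINT : S_INTBK.{u}) :
    S_DISFK.{u} :=
  disfk hFG a_zzk (a_rk1k hDET) (a_bocfk hDET hINT)

end Pool.Agent.Helper36.RK
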