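import Pool.Agent.Helper10.SP.GoalsI
import Pool.Agent.Helper95.RK.DefsK

/-! # RK, Section I: polarized families of complex structures (definitions)

`lam : Fin (2k) → ℂᵇ → ℂᵏ` are the generalised periods, `L(z)` the `k × 2k` matrix with columns
`lam j z`, `Om` a real antisymmetric matrix (the inverse of the polarization) with `L Om Lᵀ = 0`,
`H⁻¹ := (1/2i) conj(L) Om Lᵀ` positive definite. -/

open Complex Metric Set Filter Topology MeasureTheory
open scoped ContDiff ComplexConjugate ComplexOrder Manifold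

namespace Pool.Agent.Helper36.RK

open Pool.Agent.Helper95.Lin Pool.Agent.Helper10.SP Pool.Agent.Helper95.RK

/-- The complexification of a real matrix. -/
def toC {m n : Type*} (Q : Matrix m n ℝ) : Matrix m n ℂ := Q.map fun r => (r : ℂ)

/-- The entrywise conjugate. -/
noncomputable def cj {m n : Type*} (M : Matrix m n ℂ) : Matrix m n ℂ := M.map (starRingEnd ℂ)

/-- The derivative of `Lm lam` at `z` in the direction `v`. -/
noncomputable def dL {b k : ℕ} (lam : Fin (2 * k) → Cn b → Cn k) (z v : Cn b) :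
    Matrix (Fin k) (Fin (2 * k)) ℂ :=
  Matrix.of fun p j => fderiv ℂ (lam j) z v p

/-- `(1/2i) conj(L) Om Lᵀ` for a `k × 2k` matrix `L`. -/
noncomputable def hiM {k : ℕ} (L : Matrix (Fin k) (Fin (2 * k)) ℂ)
    (Om : Matrix (Fin (2 * k)) (Fin (2 * k)) ℝ) : Matrix (Fin k) (Fin k) ℂ :=
  (1 / (2 * I) : ℂ) • (cj L * toC Om * L.transpose)

/-- The inverse of the metric of the leaves (this is `Hiv lam Om z` of DefsK, by `rfl`). -/
noncomputable def Hi {b k : ℕ} (lam : Fin (2 * k) → Cn b → Cn k)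
    (Om : Matrix (Fin (2 * k)) (Fin (2 * k)) ℝ) (z : Cn b) : Matrix (Fin k) (Fin k) ℂ :=
  hiM (Lm lam z) Om

/-- The metric of the leaves. -/
noncomputable def Hb {b k : ℕ} (lam : Fin (2 * k) → Cn b → Cn k)
    (Om : Matrix (Fin (2 * k)) (Fin (2 * k)) ℝ) (z : Cn b) : Matrix (Fin k) (Fin k) ℂ :=
  (Hi lam Om z)⁻¹

/-- The derivative of the period map in the direction `v`, a symmetric matrix. -/
noncomputable def sV {b k : ℕ} (lam : Fin (2 * k) → Cn b → Cn k)
    (Om : Matrix (Fin (2 * k)) (Fin (2 * k)) ℝ) (z v : Cn b) : Matrix (Fin k) (Fin k) ℂ :=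
  dL lam z v * toC Om * (Lm lam z).transpose

/-- The Hermitian form on symmetric matrices given by the metric `H`. -/
noncomputable def hs {k : ℕ} (H s s' : Matrix (Fin k) (Fin k) ℂ) : ℂ :=
  (s * H * cj s' * H.transpose).trace

/-- The pull back of the Siegel metric, `β'(u, conj v)`. -/
noncomputable def bt {b k : ℕ} (lam : Fin (2 * k) → Cn b → Cn k)
    (Om : Matrix (Fin (2 * k)) (Fin (2 * k)) ℝ) (z u v : Cn b) : ℂ :=
  hs (Hb lam Om z) (sV lam Om z u) (sV lam Om z v)

/-- `L` is a polarized complex structure: `L Om Lᵀ = 0`, `(1/2i) conj(L) Om Lᵀ > 0`. -/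
structure PolM {k : ℕ} (L : Matrix (Fin k) (Fin (2 * k)) ℂ)
    (Om : Matrix (Fin (2 * k)) (Fin (2 * k)) ℝ) : Prop where
  alt : Om.transpose = -Om
  iso : L * toC Om * L.transpose = 0
  pos : (hiM L Om).PosDef

/-- A holomorphic family of polarized complex structures on the open set `D`. -/
structure Pol {b k : ℕ} (D : Set (Cn b)) (lam : Fin (2 * k) → Cn b → Cn k)
    (Om : Matrix (Fin (2 * k)) (Fin (2 * k)) ℝ) : Prop where
  isOpen : IsOpen D
  holo : ∀ j, DifferentiableOn ℂ (lam j) D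
  pol : ∀ z ∈ D, PolM (Lm lam z) Om

/-- `ξ` belongs to the symplectic Lie algebra of `Om`. -/
def InSp {m : ℕ} (Om ξ : Matrix (Fin m) (Fin m) ℝ) : Prop := ξ * Om + Om * ξ.transpose = 0

/-- `κ` is in the symplectic Lie algebra and preserves all the complex structures over `D`. -/
def InK {b k : ℕ} (D : Set (Cn b)) (lam : Fin (2 * k) → Cn b → Cn k)
    (Om κ : Matrix (Fin (2 * k)) (Fin (2 * k)) ℝ) : Prop :=
  InSp Om κ ∧ ∀ z ∈ D, Lm lam z * toC κ * toC Om * (Lm lam z).transpose = 0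

/-- `ξ` describes the action of the field `V` on the period map over `D`. -/
def XiOf {b k : ℕ} (D : Set (Cn b)) (lam : Fin (2 * k) → Cn b → Cn k)
    (Om : Matrix (Fin (2 * k)) (Fin (2 * k)) ℝ) (V : Cn b → Cn b)
    (ξ : Matrix (Fin (2 * k)) (Fin (2 * k)) ℝ) : Prop :=
  InSp Om ξ ∧ ∀ z ∈ D, sV lam Om z (V z) = - (Lm lam z * toC ξ * toC Om * (Lm lam z).transpose)

/-- The holomorphic fields `V` and `W` commute on `D`. -/
def CommOn {b : ℕ} (D : Set (Cn b)) (V W : Cn b → Cn b) : Prop :=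
  ∀ z ∈ D, fderiv ℂ W z (V z) = fderiv ℂ V z (W z)

/-- Maps of the pseudogroup between points of `Bd c 2`. -/
def PBK {b k N : ℕ} (c : Fin N → Cn b) (P : Set (Cn b) → TriK b k → Prop) (U : Set (Cn b))
    (t : TriK b k) : Prop := P U t ∧ U ⊆ Bd c 2 ∧ MapsTo t.g U (Bd c 2)

/-- The real combinations of the `lam j` are limits of the translation parts of maps of the
pseudogroup which tend to the identity in the other components. -/
def LimK {b k N : ℕ} (c : Fin N → Cn b) (P : Set (Cn b) → TriK b k → Prop)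
    (lam : Fin (2 * k) → Cn b → Cn k) : Prop :=
  ∀ (i : Fin N) (r : Fin (2 * k) → ℝ), ∃ (t : ℕ → TriK b k) (s : ℕ → ℝ),
    (∀ n, BigK c P i (t n)) ∧ (∀ n, 0 < s n) ∧ Tendsto s atTop atTop ∧
    ∀ ε > 0, ∀ᶠ n in atTop, ∀ z ∈ ball (c i) 3, ‖(t n).g z - z‖ ≤ ε ∧ MB ((t n).A z - 1) ε ∧
      ‖(t n).β z - ((s n : ℝ) : ℂ) • ∑ j, (r j : ℂ) • lam j z‖ ≤ ε * s n

/-- The Gram determinant of the symmetric matrices `s k`. -/
noncomputable def gram {k m : ℕ} (H : Matrix (Fin k) (Fin k) ℂ)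
    (s : Fin m → Matrix (Fin k) (Fin k) ℂ) : ℂ :=
  (Matrix.of fun i j => hs H (s i) (s j)).det

end Pool.Agent.Helper36.RK
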