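import Pool.Agent.Helper36.RK.GoalsP

/-! # RK, Section I, part 2: there are no commuting generators

`FEtK`, `AFolK`, `PerK`, `PolK`, `CFamK`, `InfGenK`, `DiscK`: Helper95/RK/DefsK.lean. `Pol`, `Hi`, `Hb`, `sV`, `bt`, `hs`,
`gram`, `XiOf`, `PBK`: DefsP.lean. `Bd c r` is the disjoint union of the balls `ball (c i) r`. The corresponding
statements for `k = 1` (all landed) are in Helper10/SP/GoalsI.lean. -/

open Complex Metric Set Filter Topology MeasureTheory Matrix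
open scoped ContDiff ComplexConjugate ComplexOrder Manifold

namespace Pool.Agent.Helper36.RK

open Pool.Agent.Helper95.Lin Pool.Agent.Helper10.SP Pool.Agent.Helper95.RK

universe u v

/-- BTK. Transformation under the maps of the pseudogroup. USES: BTR. (`polK` below gives `Pol` on each ball.)
PROOF. `PerK.trans` gives `Q` with `t.A z' *ᵥ lam l z' = ∑ Q p l • lam p (t.g z')` near `z`, i.e. `A L = (L ∘ g) Q`;
`PolK.trans`: `Q Om_i Qᵀ = Om_j`. `BTR` with `D = ball (c i) 2`, `D' = ball (c j) 2`. -/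
def S_BTK : Prop := ∀ {b k N : ℕ} (c : Fin N → Cn b) (R : ℝ) (P : Set (Cn b) → TriK b k → Prop)
  (Φ : Cn b → ℝ) (Hf : Cn b → Matrix (Fin k) (Fin k) ℂ) (C : ℝ), AFolK c R P Φ Hf C →
  ∀ lam Om, PerK c P lam → PolK c P lam Om → ∀ U t, P U t → ∀ z ∈ U, ∀ i j,
  z ∈ ball (c i) 2 → t.g z ∈ ball (c j) 2 →
  Hi lam (Om j) (t.g z) = cj (t.A z) * Hi lam (Om i) z * (t.A z).transpose ∧
  (∀ v, sV lam (Om j) (t.g z) (fderiv ℂ t.g z v) =
    t.A z * sV lam (Om i) z v * (t.A z).transpose) ∧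
  ∀ u v, bt lam (Om j) (t.g z) (fderiv ℂ t.g z u) (fderiv ℂ t.g z v) = bt lam (Om i) z u v

/-- MUK. The invariant density on the base. USES: DIFP, LDET, BTK, WIRT, LMF.
PROOF. `μ z := exp (Φ z) * (Hi lam (Om i) z).det.re` for `z ∈ ball (c i) 2` (the balls are disjoint, `sep`; choose the index
classically). Smooth and positive: `DIFP`. Invariance: `Φ z = Φ (g z) + log |det Dg|² + log |det A|²` (`pot`) and
`det Hi (g z) = |det A|² det Hi z` (`BTK`). `LM (log μ) = LM Φ + LM (log det Hi)`, `LDET`. -/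
def S_MUK : Prop := ∀ {b k N : ℕ} (c : Fin N → Cn b) (R : ℝ) (P : Set (Cn b) → TriK b k → Prop)
  (Φ : Cn b → ℝ) (Hf : Cn b → Matrix (Fin k) (Fin k) ℂ) (C : ℝ), AFolK c R P Φ Hf C →
  ∀ lam Om, PerK c P lam → PolK c P lam Om → ∃ μ : Cn b → ℝ, ContDiffOn ℝ ∞ μ (Bd c 2) ∧
    (∀ z ∈ Bd c 2, 0 < μ z) ∧
    (∀ U t, PBK c P U t → ∀ z ∈ U, μ z = μ (t.g z) * ‖(fderiv ℂ t.g z).det‖ ^ 2) ∧
    ∀ i, ∀ z ∈ ball (c i) 2, ∀ j l, LM (fun y => Real.log (μ y)) z j l = LM Φ z j l -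
      bt lam (Om i) z (Pi.single j 1) (Pi.single l 1)

/-- XIK. Generators act through the symplectic Lie algebra. USES: XI0.
PROOF. `t_n, σ_n` from `InfGenK`; for large `n` `t_n.g (c i) ∈ ball (c i) 1`, so `BigK`. `Q_n` from `PerK.trans` at `c i`: the
relation `A_n L = (L ∘ g_n) Q_n` holds near `c i`, so (identity theorem; `g_n` maps `ball (c i) (3/2)` to `ball (c i) 2`) on
`ball (c i) (3/2)`. `PolK.trans` at `c i`: `Q_n Om_i Q_nᵀ = Om_i`. `Q_n` is bounded: `∑_p Q_pl lam_p (g_n z) = A_n lam_l (z)`,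
`PerK.bdd`, `abd`. (Put `Q_n := 0` for the finitely many other `n`.) `XI0` with `r = 2`, `r' = 3/2`. -/
def S_XIK : Prop := ∀ {b k N : ℕ} (c : Fin N → Cn b) (R : ℝ) (P : Set (Cn b) → TriK b k → Prop)
  (Φ : Cn b → ℝ) (Hf : Cn b → Matrix (Fin k) (Fin k) ℂ) (C : ℝ), AFolK c R P Φ Hf C →
  ∀ lam Om, PerK c P lam → PolK c P lam Om → ∀ (i : Fin N) (V : Cn b → Cn b),
  InfGenK c P i V → ∃ ξ, XiOf (ball (c i) 2) lam (Om i) V ξ

/-- IMK. Reality of the Siegel metric on a commutative family. USES: XIK, LIFT, IMB.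
PROOF. `V l` is a generator (`gen` with a unit vector), `XIK`; `comm`; `LIFT` on `ball (c i) 2`; `IMB`. -/
def S_IMK : Prop := ∀ {b k N : ℕ} (c : Fin N → Cn b) (R : ℝ) (P : Set (Cn b) → TriK b k → Prop)
  (Φ : Cn b → ℝ) (Hf : Cn b → Matrix (Fin k) (Fin k) ℂ) (C : ℝ), AFolK c R P Φ Hf C →
  ∀ lam Om, PerK c P lam → PolK c P lam Om → ∀ (m : ℕ) (V : Fin m → Cn b → Cn b), CFamK c P m V →
  ∀ i l l', ∀ z ∈ ball (c i) 2, (bt lam (Om i) z (V l z) (V l' z)).im = 0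

/-- RLTK. The curvature is real on a commutative family. USES: MUK, HVR0, RLT0, IMK, BTP, WIRT, LMF.
PROOF. `μ` from `MUK`. On `ball (c i) 2`: `Re (hV μ (V l)) = 0` by `HVR0` (`r = 2`, every `r' < 2`; for large `n` the map `t_n`
maps `ball (c i) r'` into `ball (c i) 2`, so `PBK` holds for its restriction, `mono`). `RLT0`: `hermi (LM (log μ)) V_l V_l'` is
real. `hermi (LM Φ) V_l V_l' = hermi (LM (log μ)) V_l V_l' + bt V_l V_l'` (`MUK`, `BTP`), and `bt` is real by `IMK`. -/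
def S_RLTK : Prop := ∀ {b k N : ℕ} (c : Fin N → Cn b) (R : ℝ) (P : Set (Cn b) → TriK b k → Prop)
  (Φ : Cn b → ℝ) (Hf : Cn b → Matrix (Fin k) (Fin k) ℂ) (C : ℝ), AFolK c R P Φ Hf C →
  ∀ lam Om, PerK c P lam → PolK c P lam Om → ∀ (m : ℕ) (V : Fin m → Cn b → Cn b), CFamK c P m V →
  ∀ l l', ∀ z ∈ Bd c 2, (hermi (LM Φ z) (V l z) (V l' z)).im = 0

/-- ZZK. The generators of a commutative family that kill the period map form a commutative family.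
USES: BTK, DIFP. (Adapt the landed proof of `S_ZZ`.)
PROOF. `K_i := {x : Fin m → ℝ | sV (∑ x_l V_l) = 0 on ball (c i) 2}`, a subspace. For a germ `t` at `z ∈ ball (c i) 2`,
`t.g z ∈ ball (c j) 2`, with matrix `B` (`CFamK.trans`): `sV_j (g z') (∑ (B x)_l V_l (g z')) = A sV_i (∑ x_l V_l z') Aᵀ` (`BTK`,
linearity), `A` invertible, so `B K_i = K_j` (`t.g` is open, identity theorem on balls, `DIFP` (3)). So `dim K_i = dim K_j`;
`conn` for `S = ⋃ {ball (c i) 2 | dim K_i = d}`: all `K_i` have the same dimension `m'`. If `m' = 0`: second alternative.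
Otherwise choose bases `x^i_1, …, x^i_{m'}` of `K_i` and put `V'_l := ∑_p (x^i_l)_p V_p` on `ball (c i) 3`; `trans`: the matrix
of `B : K_i → K_j` in these bases, invertible; the other fields are clear. -/
def S_ZZK : Prop := ∀ {b k N : ℕ} (c : Fin N → Cn b) (R : ℝ) (P : Set (Cn b) → TriK b k → Prop)
  (Φ : Cn b → ℝ) (Hf : Cn b → Matrix (Fin k) (Fin k) ℂ) (C : ℝ), AFolK c R P Φ Hf C →
  ∀ lam Om, PerK c P lam → PolK c P lam Om → ∀ (m : ℕ) (V : Fin m → Cn b → Cn b), CFamK c P m V →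
  (∃ (m' : ℕ) (V' : Fin m' → Cn b → Cn b), CFamK c P m' V' ∧
    ∀ l i, ∀ z ∈ ball (c i) 2, sV lam (Om i) z (V' l z) = 0) ∨
  ∀ i, ∀ x : Fin m → ℝ, (∀ z ∈ ball (c i) 2, sV lam (Om i) z (∑ l, (x l : ℂ) • V l z) = 0) →
    x = 0

/-- DETCK. The flat line bundle of a commutative family (`S_DETC` for `TriK`; Section H, helper10). -/
def S_DETCK : Prop := ∀ {b k N : ℕ} {G : Type u} [Group G] (c : Fin N → Cn b) (R : ℝ)
  (Rel : G → Cn (b + k) → Cn (b + k) → Prop) (P : Set (Cn b) → TriK b k → Prop) (Φ : Cn b → ℝ)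
  (Hf : Cn b → Matrix (Fin k) (Fin k) ℂ) (C : ℝ)
  (H : Cn (b + k) → Matrix (Fin (b + k)) (Fin (b + k)) ℂ), FEtK c R Rel P Φ Hf C H →
  ∀ (m : ℕ) (V : Fin m → Cn b → Cn b), CFamK c P m V → ∃ u : Cn b → ℝ,
    ContDiffOn ℝ ∞ u (Bd c 2) ∧ (∀ z ∈ Bd c 2, ∀ e, lev u z e = 0) ∧
    ∀ U t, PBK c P U t → ∀ z ∈ U, ∀ B : Matrix (Fin m) (Fin m) ℝ,
      (∀ᶠ z' in 𝓝 z, ∀ j, fderiv ℂ t.g z' (V j z') = ∑ l, ((B l j : ℝ) : ℂ) • V l (t.g z')) →
      B.det ≠ 0 ∧ u (t.g z) - u z = - Real.log |B.det|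

/-- INTBK. Integration over the base (`S_INTB` for `TriK`; Section H, helper10). -/
def S_INTBK : Prop := ∀ {b k N : ℕ} {G : Type u} [Group G] (c : Fin N → Cn b) (R : ℝ)
  (Rel : G → Cn (b + k) → Cn (b + k) → Prop) (P : Set (Cn b) → TriK b k → Prop) (Φ : Cn b → ℝ)
  (Hf : Cn b → Matrix (Fin k) (Fin k) ℂ) (C : ℝ)
  (H : Cn (b + k) → Matrix (Fin (b + k)) (Fin (b + k)) ℂ), FEtK c R Rel P Φ Hf C H →
  ∀ μ : Cn b → ℝ, ContDiffOn ℝ ∞ μ (Bd c 2) → (∀ z ∈ Bd c 2, 0 < μ z) →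
  (∀ U t, PBK c P U t → ∀ z ∈ U, μ z = μ (t.g z) * ‖(fderiv ℂ t.g z).det‖ ^ 2) →
  ∀ Y : Cn b → Cn b, ContDiffOn ℝ ∞ Y (Bd c 2) →
  (∀ U t, PBK c P U t → ∀ z ∈ U, fderiv ℂ t.g z (Y z) = Y (t.g z)) →
  (∀ z ∈ Bd c 2, 0 ≤ ((μ z : ℂ)⁻¹ * ∑ j, cd j (fun y => (μ y : ℂ) * Y y j) z).re) →
  ∀ z ∈ Bd c 2, ((μ z : ℂ)⁻¹ * ∑ j, cd j (fun y => (μ y : ℂ) * Y y j) z).re = 0

/-- RK1K. The second alternative of `ZZK` is impossible. USES: BTK, IMK, DETCK, DIFP, HSP, GINS, NPSH.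
PROOF. `s_l(z) := sV lam (Om i) z (V_l z)`, `F z := gram (Hb lam (Om i) z) (s_l(z))_l` for `z ∈ ball (c i) 2`; the entries of the
Gram matrix are `bt lam (Om i) z (V_l z) (V_l' z)`. (1) By `IMK`, `DIFP` and the hypothesis `GINS` (for `ball (c i) 2`) gives a
point with `F ≠ 0`. (2) For a germ `t` with matrix `B` (`CFamK.trans`) at `z ∈ ball (c i) 2`, `t.g z ∈ ball (c j) 2`: by `BTK` the
Gram matrix at `z` is `Bᵀ (Gram matrix at t.g z) B`, so `F z = (det B)² F (t.g z)`. `u` from `DETCK`: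
`f := ‖F‖ exp(-2u)` is invariant under `PBK` germs: `exp (-2u(g z)) = |det B|² exp(-2u z)`. (3) `f` is continuous on `Bd c 2`
(`DIFP` (4)); every point of `Bd c 2` is equivalent to a point of the compact set `⋃ closedBall (c i) 1` (`coc`, restrict
the germ), so `f` has a maximum over `Bd c 2` at some `z₁ ∈ Bd c 2`, `f z₁ > 0` by (1). (4) So `log ‖F‖ - 2u` has a local
maximum at `z₁`; `NPSH` with `D = ball (c i) 2`, `e := V_0 z₁` (`m > 0`), `s_0`: `cj (s_0) * Hbᵀ * s_0 = 0` at `z₁`, so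
`hs Hb s_0 s_0 = trace (s_0 * Hb * cj s_0 * Hbᵀ) = trace (Hb * (cj s_0 * Hbᵀ * s_0)) = 0`, `s_0(z₁) = 0` (`HSP`), and the Gram
matrix has a zero row: `F z₁ = 0`, contradiction. -/
def S_RK1K : Prop := ∀ {b k N : ℕ} {G : Type u} [Group G] (c : Fin N → Cn b) (R : ℝ)
  (Rel : G → Cn (b + k) → Cn (b + k) → Prop) (P : Set (Cn b) → TriK b k → Prop) (Φ : Cn b → ℝ)
  (Hf : Cn b → Matrix (Fin k) (Fin k) ℂ) (C : ℝ)
  (H : Cn (b + k) → Matrix (Fin (b + k)) (Fin (b + k)) ℂ), FEtK c R Rel P Φ Hf C H →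
  ∀ lam Om, PerK c P lam → PolK c P lam Om → ∀ (m : ℕ) (V : Fin m → Cn b → Cn b), CFamK c P m V →
  ¬ ∀ i, ∀ x : Fin m → ℝ, (∀ z ∈ ball (c i) 2, sV lam (Om i) z (∑ l, (x l : ℂ) • V l z) = 0) →
    x = 0

/-- BOCFK. There is no commutative family that kills the period map. USES: MUK, DETCK, RLTK, GIND0, INTBK,
BIDK, BTP, and `S_TENS`, `S_BNAT` of Helper10/SP/GoalsI.lean (proved: Helper87, Helper97). (Adapt the landed
proof of `S_BOCF`.)
PROOF. `m = p + 1`. `μ` (`MUK`), `u` (`DETCK`), `Y := YB Φ μ u V`. `BIDK` on each `D = ball (c i) 2` with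
`β z j l := bt lam (Om i) z e_j e_l`: `∑ j V_l^j β_j l' = bt (V_l) (e_l') = 0` since `sV (V_l) = 0`. `BNAT` for the map
`t' := ⟨t.g, fun z => (t.A z).det, 0⟩ : Tri b` (`PotR Φ Φ t' z` is `AFolK.pot`), locally near each point of a `PBK` map, with
`B` from `CFamK.trans` and `DETCK`: `Y` is invariant. `TENS`: the hypothesis `0 ≤ Re` of `INTBK` holds, so
`tf Θ (sg V z) (sg V z) = 0` and `sg V z = 0` for all `z ∈ Bd c 2`. But `GIND0` on `ball (c i) 2` (with `RLTK`; independence on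
`ball (c i) 2` from `indep` by the identity theorem) gives a point where `V_0, …, V_p` are linearly independent over
`ℂ`, so some minor `sg V z I ≠ 0`. (`N > 0`.) -/
def S_BOCFK : Prop := ∀ {b k N : ℕ} {G : Type u} [Group G] (c : Fin N → Cn b) (R : ℝ)
  (Rel : G → Cn (b + k) → Cn (b + k) → Prop) (P : Set (Cn b) → TriK b k → Prop) (Φ : Cn b → ℝ)
  (Hf : Cn b → Matrix (Fin k) (Fin k) ℂ) (C : ℝ)
  (H : Cn (b + k) → Matrix (Fin (b + k)) (Fin (b + k)) ℂ), FEtK c R Rel P Φ Hf C H →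
  ∀ lam Om, PerK c P lam → PolK c P lam Om → ∀ (m : ℕ) (V : Fin m → Cn b → Cn b), CFamK c P m V →
  ¬ ∀ l i, ∀ z ∈ ball (c i) 2, sV lam (Om i) z (V l z) = 0

/-- DISFK. The transversal pseudogroup is discrete. USES: `S_FGK`, ZZK, RK1K, BOCFK.
PROOF. `S_FGK`: if not `DiscK` there is a `CFamK`; `ZZK` and `RK1K`, `BOCFK`. -/
def S_DISFK : Prop := ∀ {b k N : ℕ} {G : Type u} [Group G] (c : Fin N → Cn b) (R : ℝ)
  (Rel : G → Cn (b + k) → Cn (b + k) → Prop) (P : Set (Cn b) → TriK b k → Prop) (Φ : Cn b → ℝ)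
  (Hf : Cn b → Matrix (Fin k) (Fin k) ℂ) (C : ℝ)
  (H : Cn (b + k) → Matrix (Fin (b + k)) (Fin (b + k)) ℂ), FEtK c R Rel P Φ Hf C H →
  ∀ lam Om, PerK c P lam → PolK c P lam Om → DiscK c P

/-- A polarization gives a polarized family over each ball. -/
theorem polK {b k N : ℕ} {c : Fin N → Cn b} {P : Set (Cn b) → TriK b k → Prop}
    {lam : Fin (2 * k) → Cn b → Cn k} {Om : Fin N → Matrix (Fin (2 * k)) (Fin (2 * k)) ℝ}
    (hP : PerK c P lam) (hO : PolK c P lam Om) (i : Fin N) : Pol (ball (c i) 2) lam (Om i) where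
  isOpen := isOpen_ball
  holo j := (hP.holo j).mono fun _ hz => mem_iUnion.2 ⟨i, ball_subset_ball (by norm_num) hz⟩
  pol z hz := by
    refine ⟨hO.skew i, hO.rel i z ?_, hO.pos i z ?_⟩
    all_goals first
      | exact hz
      | exact ball_subset_ball (by norm_num) hz

theorem disfk (hFG : S_FGK) (hZZ : S_ZZK) (hRK : S_RK1K.{u}) (hBO : S_BOCFK.{u}) : S_DISFK.{u} := by
  intro b k N G _ c R Rel P Φ Hf C H hF lam Om hP hO
  rcases hFG c R P Φ Hf C hF.fol with h | ⟨m, V, hV⟩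
  · exact h
  · exfalso
    rcases hZZ c R P Φ Hf C hF.fol lam Om hP hO m V hV with ⟨m', V', hV', h0⟩ | h1
    · exact hBO c R Rel P Φ Hf C H hF lam Om hP hO m' V' hV' h0
    · exact hRK c R Rel P Φ Hf C H hF lam Om hP hO m V hV h1

end Pool.Agent.Helper36.RK
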