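import Pool.Agent.Helper36.RK.DefsP

/-! # RK, Section I, part 1: polarized families of complex structures

Everything here is independent of pseudogroups. Conventions: `cd`, `cdb`, `LM` are TWICE (four times)
the usual Wirtinger (mixed) derivatives, `fderiv ℂ` is the usual derivative. `L̄ = cj L`, `H = Hi⁻¹`.
Every `S_X` may use the earlier ones and the Props of Helper10/SP/GoalsA.lean (`S_WIRT`, `S_WCH`, `S_LMF`)
as hypotheses. -/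

open Complex Metric Set Filter Topology MeasureTheory Matrix
open scoped ContDiff ComplexConjugate ComplexOrder Manifold

namespace Pool.Agent.Helper36.RK

open Pool.Agent.Helper95.Lin Pool.Agent.Helper10.SP Pool.Agent.Helper95.RK

/-- ALGP. Linear algebra of a polarized complex structure.
PROOF. `K := hiM L Om`, `H = K⁻¹`. `cj L * toC Om * Lᵀ = 2 I K`; taking conjugates (`toC Om` is real, `K` Hermitian, so
`cj K = Kᵀ`) `L * toC Om * (cj L)ᵀ = - 2 I Kᵀ`, and `cj L * toC Om * (cj L)ᵀ = 0`. With `M := fromRows L (cj L)` (`2k × 2k`):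
`M * toC Om * Mᵀ = fromBlocks 0 (-2 I Kᵀ) (2 I K) 0 =: S`, invertible with inverse
`fromBlocks 0 ((1/(2I)) H) (-(1/(2I)) Hᵀ) 0`. So `M` is invertible (square: `Fin k ⊕ Fin k ≃ Fin (2k)`), `Om` is invertible
and `toC Om⁻¹ = Mᵀ S⁻¹ M`: this is (2). (3): `X = X toC Om toC Om⁻¹ = -(1/(2I)) (X toC Om (cj L)ᵀ Hᵀ) L`. (4): `L x = 0`, `x` real,
so `cj L x = 0`, `M x = 0`. -/
def S_ALGP : Prop := ∀ {k : ℕ} (L : Matrix (Fin k) (Fin (2 * k)) ℂ)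
  (Om : Matrix (Fin (2 * k)) (Fin (2 * k)) ℝ), PolM L Om →
  Om.det ≠ 0 ∧
  toC Om⁻¹ = (1 / (2 * I) : ℂ) • (L.transpose * (hiM L Om)⁻¹ * cj L -
    (cj L).transpose * ((hiM L Om)⁻¹).transpose * L) ∧
  (∀ X : Matrix (Fin k) (Fin (2 * k)) ℂ, X * toC Om * L.transpose = 0 →
    ∃ a : Matrix (Fin k) (Fin k) ℂ, X = a * L) ∧
  (∀ x : Fin (2 * k) → ℝ, L.mulVec (fun j => (x j : ℂ)) = 0 → x = 0) ∧
  (hiM L Om)⁻¹.PosDef ∧ hiM L Om * (hiM L Om)⁻¹ = 1 ∧ (hiM L Om)⁻¹ * hiM L Om = 1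

/-- HSP. The Hermitian form on symmetric matrices.
PROOF. `H = Qᴴ Q` with `Q` invertible (`Matrix.PosDef`), so with `s₁ := (cj Q) ... `: put `x := Q' s Q'ᵀ` with
`Q' := cj Q` (then `Q'ᵀ cj Q' = (H)`-type factorization: choose `Q'` with `H = Q'ᵀ * cj Q'`, i.e. `Q' = cj Q`); then
`hs H s s' = trace (x * cj x')` with `x = Q' s Q'ᵀ`, `x' = Q' s' Q'ᵀ` symmetric, `= ∑ x_ij conj (x'_ij)`. All items follow: it is
an inner product on symmetric matrices; the Gram determinant of vectors is real, `≥ 0`, and `≠ 0` iff the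
vectors are linearly independent (if `∑ c_i s_i = 0` then `cᵀ Gram = 0`; if `cᵀ Gram = 0` then `∑ c_i s_i` has norm zero). -/
def S_HSP : Prop := ∀ {k : ℕ} (H : Matrix (Fin k) (Fin k) ℂ), H.PosDef →
  (∀ s s' : Matrix (Fin k) (Fin k) ℂ, s.transpose = s → s'.transpose = s' →
    hs H s' s = conj (hs H s s')) ∧
  (∀ s : Matrix (Fin k) (Fin k) ℂ, s.transpose = s → (hs H s s).im = 0 ∧ 0 ≤ (hs H s s).re ∧
    (hs H s s = 0 → s = 0)) ∧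
  (∀ (x y : ℂ) (s s' t : Matrix (Fin k) (Fin k) ℂ),
    hs H (x • s + y • s') t = x * hs H s t + y * hs H s' t ∧
    hs H t (x • s + y • s') = conj x * hs H t s + conj y * hs H t s') ∧
  ∀ {m : ℕ} (s : Fin m → Matrix (Fin k) (Fin k) ℂ), (∀ i, (s i).transpose = s i) →
    (gram H s).im = 0 ∧ 0 ≤ (gram H s).re ∧ (gram H s ≠ 0 ↔ LinearIndependent ℂ s)

/-- TRP. Change of the basis of the periods and of the frame of the leaves. USES: ALGP.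
PROOF. `cj L' * toC Om' * L'ᵀ = (cj L' toC Q) toC Om (L' toC Q)ᵀ = cj A (cj L toC Om Lᵀ) Aᵀ`. So
`hiM L' Om' = cj A * hiM L Om * Aᵀ`, and `det A ≠ 0`; `det Q ≠ 0` from `Om' = Q Om Qᵀ` invertible. `H = Aᵀ H' cj A`;
`hs H' (A s Aᵀ) (A s' Aᵀ) = trace (A s Aᵀ H' cj A cj s' (cj A)ᵀ H'ᵀ) = trace (s (Aᵀ H' cj A) cj s' ((cj A)ᵀ H'ᵀ A))`, and the last
factor is `Hᵀ`. -/
def S_TRP : Prop := ∀ {k : ℕ} (L L' : Matrix (Fin k) (Fin (2 * k)) ℂ)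
  (Om Om' Q : Matrix (Fin (2 * k)) (Fin (2 * k)) ℝ) (A : Matrix (Fin k) (Fin k) ℂ),
  PolM L Om → PolM L' Om' → Q * Om * Q.transpose = Om' → A * L = L' * toC Q →
  A.det ≠ 0 ∧ Q.det ≠ 0 ∧ hiM L' Om' = cj A * hiM L Om * A.transpose ∧
  (hiM L Om)⁻¹ = A.transpose * (hiM L' Om')⁻¹ * cj A ∧
  ∀ s s' : Matrix (Fin k) (Fin k) ℂ, hs (hiM L' Om')⁻¹ (A * s * A.transpose) (A * s' * A.transpose) =
    hs (hiM L Om)⁻¹ s s'

/-- DIFP. Calculus of a polarized family. USES: ALGP, HSP, WIRT.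
PROOF. (1) differentiate `L Om Lᵀ = 0`: `dL Om Lᵀ = - L Om dLᵀ`, and `(dL Om Lᵀ)ᵀ = L Omᵀ dLᵀ = - L Om dLᵀ`. (2) `fderiv` is
linear; the derivative of a holomorphic function is holomorphic. (4) entries of `Hi` are polynomials in the
real and imaginary parts of the (smooth) functions `lam j z p`; `Hb = (det Hi)⁻¹ adjugate`. (5) `det` of a positive
definite matrix is a positive real number. -/
def S_DIFP : Prop := ∀ {b k : ℕ} (D : Set (Cn b)) (lam : Fin (2 * k) → Cn b → Cn k)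
  (Om : Matrix (Fin (2 * k)) (Fin (2 * k)) ℝ), Pol D lam Om →
  (∀ z ∈ D, ∀ v, (sV lam Om z v).transpose = sV lam Om z v) ∧
  (∀ z, ∀ (x y : ℂ) (u v : Cn b), sV lam Om z (x • u + y • v) =
    x • sV lam Om z u + y • sV lam Om z v) ∧
  (∀ V : Cn b → Cn b, DifferentiableOn ℂ V D → ∀ p q,
    DifferentiableOn ℂ (fun z => sV lam Om z (V z) p q) D) ∧
  (∀ p q, ContDiffOn ℝ ∞ (fun z => Hi lam Om z p q) D ∧ ContDiffOn ℝ ∞ (fun z => Hb lam Om z p q) D) ∧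
  (∀ z ∈ D, 0 < (Hi lam Om z).det.re ∧ (Hi lam Om z).det.im = 0) ∧
  ContDiffOn ℝ ∞ (fun z => Real.log (Hi lam Om z).det.re) D

/-- LDET. The Levi form of `log det Hi`. USES: ALGP, DIFP, WIRT.
PROOF. Write `∂_j, ∂̄_l` for the usual derivatives, `K = Hi`, `H = K⁻¹`, `L_j = dL lam z e_j`, `σ_j = sV z e_j`.
`K = (1/2i) L̄ Om Lᵀ`, `∂_j K = (1/2i) L̄ Om L_jᵀ`, `∂̄_l K = (1/2i) L̄_l Om Lᵀ`, `∂_j ∂̄_l K = (1/2i) L̄_l Om L_jᵀ` (`L` is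
holomorphic; `L̄_l` = conjugate of `L_l`). By ALGP (2), `Om = Om Om⁻¹ Om = (1/2i)(Om Lᵀ H L̄ Om - Om L̄ᵀ Hᵀ L Om)`; insert:
`(1/2i) L̄_l Om L_jᵀ = (1/2i)² [L̄_l Om Lᵀ H L̄ Om L_jᵀ - L̄_l Om L̄ᵀ Hᵀ L Om L_jᵀ] = ∂̄_l K H ∂_j K - (1/4) σ̄_l Hᵀ σ_j`
(`L̄_l Om L̄ᵀ = σ̄_l`, `L Om L_jᵀ = - σ_jᵀ = - σ_j`, `(1/2i)² = -1/4`). Then
`∂_j ∂̄_l log det K = tr (H ∂_j∂̄_l K) - tr (H ∂_j K H ∂̄_l K) = - (1/4) tr (H σ̄_l Hᵀ σ_j) = - (1/4) hs H σ_j σ_l`; `LM` is `4 ∂_j∂̄_l`.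
(For an invertible matrix of functions `d log det K = tr (K⁻¹ dK)`.) -/
def S_LDET : Prop := ∀ {b k : ℕ} (D : Set (Cn b)) (lam : Fin (2 * k) → Cn b → Cn k)
  (Om : Matrix (Fin (2 * k)) (Fin (2 * k)) ℝ), Pol D lam Om → ∀ z ∈ D, ∀ j l,
  LM (fun y => Real.log (Hi lam Om y).det.re) z j l =
    - bt lam Om z (Pi.single j 1) (Pi.single l 1)

/-- BTP. The form `bt`. USES: ALGP, HSP, DIFP.
PROOF. `sV` is linear in the vector and symmetric; `HSP` for `H = Hb`. -/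
def S_BTP : Prop := ∀ {b k : ℕ} (D : Set (Cn b)) (lam : Fin (2 * k) → Cn b → Cn k)
  (Om : Matrix (Fin (2 * k)) (Fin (2 * k)) ℝ), Pol D lam Om → ∀ z ∈ D,
  (∀ u v, bt lam Om z u v = ∑ j, ∑ l, u j * conj (v l) *
    bt lam Om z (Pi.single j 1) (Pi.single l 1)) ∧
  (∀ u v, bt lam Om z v u = conj (bt lam Om z u v)) ∧
  ∀ v, (bt lam Om z v v).im = 0 ∧ 0 ≤ (bt lam Om z v v).re ∧
    (bt lam Om z v v = 0 ↔ sV lam Om z v = 0)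

/-- BTR. Transformation of the derivative of the period map. USES: ALGP, TRP, DIFP.
PROOF. Differentiate `A L = (L' ∘ g) Q` at `z` in the direction `v`: `dA(v) L + A dL(v) = dL'(g z)(Dg v) Q`. So
`sV' (g z) (Dg v) = dL'(Dg v) Om' L'ᵀ = dL'(Dg v) Q Om (L' Q)ᵀ = (dA(v) L + A dL(v)) Om Lᵀ Aᵀ = A sV(v) Aᵀ` since `L Om Lᵀ = 0`.
Then `TRP`. -/
def S_BTR : Prop := ∀ {b k : ℕ} (D D' : Set (Cn b)) (lam lam' : Fin (2 * k) → Cn b → Cn k)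
  (Om Om' Q : Matrix (Fin (2 * k)) (Fin (2 * k)) ℝ), Pol D lam Om → Pol D' lam' Om' →
  Q * Om * Q.transpose = Om' → ∀ (g : Cn b → Cn b) (A : Cn b → Matrix (Fin k) (Fin k) ℂ) (z : Cn b),
  z ∈ D → g z ∈ D' → DifferentiableAt ℂ g z → (∀ p q, DifferentiableAt ℂ (fun y => A y p q) z) →
  (∀ᶠ z' in 𝓝 z, A z' * Lm lam z' = Lm lam' (g z') * toC Q) →
  (A z).det ≠ 0 ∧ Hi lam' Om' (g z) = cj (A z) * Hi lam Om z * (A z).transpose ∧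
  (∀ v, sV lam' Om' (g z) (fderiv ℂ g z v) = A z * sV lam Om z v * (A z).transpose) ∧
  ∀ u v, bt lam' Om' (g z) (fderiv ℂ g z u) (fderiv ℂ g z v) = bt lam Om z u v

/-- XI0. Generators act on the period map through the symplectic Lie algebra. USES: ALGP, DIFP.
PROOF. `B' = ball x₀ r'`. From `A_n L = (L ∘ g_n) Q_n` and `L Om Lᵀ = 0`: (a) `L(g_n z) Q_n Om L(z)ᵀ = 0` on `B'`. The `Q_n`
are bounded: pass to a subsequence `Q_n → Q`, `Q Om Qᵀ = Om`, `g_n → id`: `L Q Om Lᵀ = 0` on `B'`, so `L Q = a L` (ALGP (3)).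
`R_n := Q_n Q⁻¹ → 1`, `R_n Om R_nᵀ = Om`, and (b) `L(g_n z) R_n Om L(z)ᵀ = 0`: `Q⁻¹ Om Lᵀ = Om Qᵀ Lᵀ = Om Lᵀ aᵀ`, then (a).
Transposing (b) (`Om R_nᵀ = R_n⁻¹ Om`): (c) `L(z) R_n⁻¹ Om L(g_n z)ᵀ = 0`. Let `X_n := (R_n - R_n⁻¹)/(2 σ_n)`; `InSp Om X_n`
(`R Om = Om R⁻ᵀ`, `Om Rᵀ = R⁻¹ Om`). By (b) `L R_n Om Lᵀ = (L - L ∘ g_n) R_n Om Lᵀ = - σ_n (sV(V) + o(1))`, by (c)
`L R_n⁻¹ Om Lᵀ = L R_n⁻¹ Om (L - L ∘ g_n)ᵀ = - σ_n (L Om dL(V)ᵀ + o(1)) = σ_n (sV(V) + o(1))` (pointwise; `L` is differentiable: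
`L(g_n z) = L(z) + σ_n dL(V z) + o(σ_n)`). So `L X_n Om Lᵀ → - sV(V)` at every point of `B'`. Closedness: for a finite set
`F ⊆ B'` let `ev_F : {InSp} → ∏_F Matrix`, `X ↦ L X Om Lᵀ`; its range is closed (finite dimension), so there is `ξ` with
`L ξ Om Lᵀ = - sV(V)` on `F`. Choose `F` with `ker ev_F` minimal (dimension): then `ker ev_F = ker ev_{F ∪ {z}}` for all
`z ∈ B'`, and the `ξ` for `F` works for `F ∪ {z}`. So the identity holds on `B'`, and on `ball x₀ r` by the identity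
theorem (both sides are holomorphic). -/
def S_XI0 : Prop := ∀ {b k : ℕ} (x₀ : Cn b) (r r' : ℝ), 0 < r' → r' < r →
  ∀ (lam : Fin (2 * k) → Cn b → Cn k) (Om : Matrix (Fin (2 * k)) (Fin (2 * k)) ℝ),
  Pol (ball x₀ r) lam Om → ∀ V : Cn b → Cn b, DifferentiableOn ℂ V (ball x₀ r) →
  ∀ (g : ℕ → Cn b → Cn b) (σ : ℕ → ℝ) (Q : ℕ → Matrix (Fin (2 * k)) (Fin (2 * k)) ℝ)
    (A : ℕ → Cn b → Matrix (Fin k) (Fin k) ℂ),
  (∀ n, 0 < σ n) → Tendsto σ atTop (𝓝 0) →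
  (∀ ε > 0, ∀ᶠ n in atTop, ∀ z ∈ ball x₀ r', ‖g n z - z - (σ n : ℂ) • V z‖ ≤ ε * σ n) →
  (∀ᶠ n in atTop, Q n * Om * (Q n).transpose = Om ∧
    ∀ z ∈ ball x₀ r', g n z ∈ ball x₀ r ∧ A n z * Lm lam z = Lm lam (g n z) * toC (Q n)) →
  (∃ C : ℝ, ∀ n i j, |Q n i j| ≤ C) → ∃ ξ, XiOf (ball x₀ r) lam Om V ξ

/-- KCOM. Commuting fields. USES: ALGP, DIFP.
PROOF. `InSp` is closed under the commutator. Put `σ_V z = sV z (V z) = dL(V) Om Lᵀ`. (i) Derivative of `σ_W` in the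
direction `V` minus derivative of `σ_V` in the direction `W`: the second derivatives of `L` cancel because `[V, W] = 0`:
it is `dL(W) Om dL(V)ᵀ - dL(V) Om dL(W)ᵀ`. (ii) The same from `σ_W = - L η Om Lᵀ`, `σ_V = - L ξ Om Lᵀ`:
`- dL(V) η Om Lᵀ - L η Om dL(V)ᵀ + dL(W) ξ Om Lᵀ + L ξ Om dL(W)ᵀ`. (iii) pointwise `(dL(V) + L ξ) Om Lᵀ = 0`, so (ALGP (3))
`dL(V) = a L - L ξ`, `dL(W) = a' L - L η`. Insert both, using `L Om Lᵀ = 0` and `Om ξᵀ = - ξ Om`, `Om ηᵀ = - η Om`: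
(i) `= a' L ξ Om Lᵀ - L η Om Lᵀ aᵀ - a L η Om Lᵀ + L ξ Om Lᵀ a'ᵀ + L (ξ η - η ξ) Om Lᵀ`, (ii) = the same with
`2 L (ξ η - η ξ) Om Lᵀ`. Hence `L (ξ η - η ξ) Om Lᵀ = 0`. -/
def S_KCOM : Prop := ∀ {b k : ℕ} (D : Set (Cn b)) (lam : Fin (2 * k) → Cn b → Cn k)
  (Om : Matrix (Fin (2 * k)) (Fin (2 * k)) ℝ), Pol D lam Om → ∀ V W : Cn b → Cn b,
  DifferentiableOn ℂ V D → DifferentiableOn ℂ W D → CommOn D V W →
  ∀ ξ η, XiOf D lam Om V ξ → XiOf D lam Om W η → InK D lam Om (ξ * η - η * ξ)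

/-- KNOR. The `ξ` normalize the algebra `InK`. USES: ALGP, DIFP.
PROOF. Differentiate `L κ Om Lᵀ = 0` in the direction `W`, insert `dL(W) = a L - L η` (see KCOM):
`- L η κ Om Lᵀ - L κ Om ηᵀ Lᵀ = L (κ η - η κ) Om Lᵀ = 0` (`Om ηᵀ = - η Om`; the terms with `a` vanish because
`L κ Om Lᵀ = 0`). -/
def S_KNOR : Prop := ∀ {b k : ℕ} (D : Set (Cn b)) (lam : Fin (2 * k) → Cn b → Cn k)
  (Om : Matrix (Fin (2 * k)) (Fin (2 * k)) ℝ), Pol D lam Om → ∀ W : Cn b → Cn b,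
  DifferentiableOn ℂ W D → ∀ η κ, XiOf D lam Om W η → InK D lam Om κ →
  InK D lam Om (κ * η - η * κ)

/-- KNEG. The trace form is negative definite on `InK`. USES: ALGP.
PROOF. `E := Om⁻¹` (antisymmetric), `P := Lᵀ H L̄` (`2k × 2k`), so `P - P̄ = 2i E` (ALGP (2)), `P = G + i E`, `G` real symmetric
and positive definite (`xᵀ P x̄ = (L x)ᵀ H conj(L x) > 0` for real `x ≠ 0`, ALGP (4)). `L κ = a L` (ALGP (3)). `InSp`:
`κᵀ E + E κ = 0`. `κᵀ P + P κ = Lᵀ (aᵀ H + H ā) L̄ =: Lᵀ S L̄`; its imaginary part `κᵀ E + E κ` is zero, so `Lᵀ S L̄` is real,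
i.e. `uᵀ S v̄` is real for all `u, v` of the form `L x`, `x` real, that is for all `u, v ∈ ℂᵏ` (`L` is onto over the reals: `2k`
independent real vectors); replacing `u` by `i u`: `S = 0`. So `κᵀ G + G κ = 0`: `κ` is antisymmetric for the inner
product `G`: with `G = Tᵀ T`, `κ' = T κ T⁻¹` is antisymmetric, `tr κ² = tr κ'² = - ∑ κ'_ij²`. -/
def S_KNEG : Prop := ∀ {k : ℕ} (L : Matrix (Fin k) (Fin (2 * k)) ℂ)
  (Om κ : Matrix (Fin (2 * k)) (Fin (2 * k)) ℝ), PolM L Om → InSp Om κ →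
  L * toC κ * toC Om * L.transpose = 0 →
  (κ * κ).trace ≤ 0 ∧ ((κ * κ).trace = 0 → κ = 0)

/-- LIFT. Commuting lifts. USES: KCOM, KNOR, KNEG.
PROOF. `𝔨 := {κ | InK D lam Om κ}`, a real subspace of matrices; `B(X, Y) := tr (X Y)`; `- B` is an inner product on `𝔨`
(KNEG at a point of `D`). Let `π : matrices → 𝔨` be the `B`-orthogonal projection (`B(X - π X, κ) = 0` for all `κ ∈ 𝔨`; exists by
Riesz in finite dimension). `ξ'_k := ξ_k - π ξ_k`; `XiOf` still holds. `[ξ'_k, ξ'_l] ∈ 𝔨` (KCOM), and for `κ ∈ 𝔨`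
`B([ξ'_k, ξ'_l], κ) = tr (ξ'_k (ξ'_l κ - κ ξ'_l)) = - B(ξ'_k, [κ, ξ'_l]) = 0` by KNOR. So `[ξ'_k, ξ'_l] = 0` by KNEG. -/
def S_LIFT : Prop := ∀ {b k m : ℕ} (D : Set (Cn b)) (lam : Fin (2 * k) → Cn b → Cn k)
  (Om : Matrix (Fin (2 * k)) (Fin (2 * k)) ℝ), Pol D lam Om → D.Nonempty →
  ∀ V : Fin m → Cn b → Cn b, (∀ i, DifferentiableOn ℂ (V i) D) → (∀ i j, CommOn D (V i) (V j)) →
  (∀ i, ∃ ξ, XiOf D lam Om (V i) ξ) → ∃ ξ : Fin m → Matrix (Fin (2 * k)) (Fin (2 * k)) ℝ,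
    (∀ i, XiOf D lam Om (V i) (ξ i)) ∧ ∀ i j, ξ i * ξ j = ξ j * ξ i

/-- IMB. Reality of the pull back of the Siegel metric. USES: ALGP.
PROOF. `P := Lᵀ H L̄ = G + i E`, `E = Om⁻¹`, `G` real (see KNEG), `N := Om G` real; `Om P = N + i`, `Om P̄ = N - i` (as complex
matrices), `P̄ = L̄ᵀ Hᵀ L`. `bt(V, W) = tr (L ξ Om Lᵀ H L̄ η Om L̄ᵀ Hᵀ) = tr (ξ Om P η Om P̄) = tr (ξ (N + i) η (N - i))`
`= tr(ξ N η N) + tr(ξ η) + i (tr(ξ η N) - tr(ξ N η))`, imaginary part `tr (ξ η N) - tr (η ξ N) = 0`. -/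
def S_IMB : Prop := ∀ {b k : ℕ} (D : Set (Cn b)) (lam : Fin (2 * k) → Cn b → Cn k)
  (Om : Matrix (Fin (2 * k)) (Fin (2 * k)) ℝ), Pol D lam Om → ∀ (V W : Cn b → Cn b)
  (ξ η : Matrix (Fin (2 * k)) (Fin (2 * k)) ℝ), XiOf D lam Om V ξ → XiOf D lam Om W η →
  ξ * η = η * ξ → ∀ z ∈ D, (bt lam Om z (V z) (W z)).im = 0

/-- GINS. Generic independence. USES: HSP.
PROOF. (1) If `∑ x_i s_i(z) = 0`, `x_i = p_i + I q_i`, then with `P = ∑ p_i s_i(z)`, `Q = ∑ q_i s_i(z)`: `P = - I Q`,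
`hs H P Q` is real (real combinations), and it is `- I hs H Q Q`, so `hs H Q Q = 0`, `Q = 0`, `P = 0`. (2) Let `S ⊆ Fin m` be
maximal such that `(s_i(z))_{i ∈ S}` is linearly independent over `ℂ` at some point `z₁ ∈ ball x₀ r`; it is so on a small
ball `B` about `z₁`. If `l ∉ S`: on `B` `s_l = ∑_{i ∈ S} c_i s_i` with holomorphic `c_i` (Cramer's rule with a nonvanishing
minor of the matrix of entries). By (1) and independence the `c_i` are real, so constant on `B`; `s_l - ∑ c_i s_i = 0` on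
`B`, so on `ball x₀ r` (identity theorem): contradiction. So `S = univ`. -/
def S_GINS : Prop := ∀ {b k m : ℕ} (x₀ : Cn b) (r : ℝ), 0 < r →
  ∀ (H : Cn b → Matrix (Fin k) (Fin k) ℂ) (s : Fin m → Cn b → Matrix (Fin k) (Fin k) ℂ),
  (∀ z ∈ ball x₀ r, (H z).PosDef) → (∀ i p q, DifferentiableOn ℂ (fun z => s i z p q) (ball x₀ r)) →
  (∀ i, ∀ z ∈ ball x₀ r, (s i z).transpose = s i z) →
  (∀ i j, ∀ z ∈ ball x₀ r, (hs (H z) (s i z) (s j z)).im = 0) →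
  (∀ x : Fin m → ℝ, (∀ z ∈ ball x₀ r, ∑ i, (x i : ℂ) • s i z = 0) → x = 0) →
  ∃ z ∈ ball x₀ r, gram (H z) (fun i => s i z) ≠ 0

/-- NPSH. The Gram determinant is log-plurisubharmonic, with the case of equality. USES: ALGP, HSP, DIFP,
LDET, WIRT.
PROOF. `∂, ∂̄` = usual derivatives in the direction `e` at `z₁`, `K := Hi`, `H := K⁻¹`, `σ := sV z₁ e`,
`N_ij := hs H (s_i) (s_j)`. Normalization: replacing `L` by `B L`, `s` by `B s Bᵀ` with a constant invertible `B` changes `K` to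
`B̄ K Bᵀ`, `σ` to `B σ Bᵀ` and not `N`, nor the statement; replacing `s` by constant combinations changes `log det N` by a
constant. So assume `K(z₁) = 1`, `N(z₁) = 1` (or do the same computation without normalization). `x := ∂K(z₁)`,
`∂̄K = xᴴ`, and by LDET (proof) `∂∂̄K = xᴴ x - (1/4) σ̄ σ`. So at `z₁` `∂H = - x`, `∂̄H = - xᴴ`,
`∂∂̄H = x xᴴ + xᴴ x - ∂∂̄K = x xᴴ + (1/4) σ̄ σ`. With `D_i := ∂s_i - s_i x - xᵀ s_i` (symmetric):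
`∂N_ij = tr (D_i s̄_j)`, `∂̄N_ij = tr (s_i D̄_j)` and
`∂∂̄N_ij = tr (D_i D̄_j) + (1/4) tr (s_i σ̄ σ s̄_j) + (1/4) tr (s_i s̄_j σ σ̄)`
[`∂̄(H s̄_j Hᵀ) = D̄_j`; `∂` of it `= ∂H conj(∂s_j) + conj(∂s_j) ∂Hᵀ + ∂∂̄H s̄_j + ∂̄H s̄_j ∂Hᵀ + ∂H s̄_j ∂̄Hᵀ + s̄_j ∂∂̄Hᵀ`
`= - x D̄_j - D̄_j xᵀ + (∂∂̄H - x xᴴ) s̄_j + s̄_j (∂∂̄H - x xᴴ)ᵀ`]. Hence
`∂∂̄ log det N = ∑_i ∂∂̄N_ii - ∑_ij |∂N_ij|² = (∑ |D_i|² - ∑ |tr (D_i s̄_j)|²) + (1/2) ∑ |σ̄ s_i|²`, and the bracket is `≥ 0`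
(Bessel: the `s_j(z₁)` are orthonormal for `tr (s s̄')`). At a local maximum of `log |det N| - 2 u` with `lev u z₁ e = 0` the
left side is `≤ 0`. So `σ̄ s_i = 0`, which without the normalization reads `σ̄ Hᵀ s_i = 0`. -/
def S_NPSH : Prop := ∀ {b k m : ℕ} (D : Set (Cn b)) (lam : Fin (2 * k) → Cn b → Cn k)
  (Om : Matrix (Fin (2 * k)) (Fin (2 * k)) ℝ), Pol D lam Om →
  ∀ s : Fin m → Cn b → Matrix (Fin k) (Fin k) ℂ,
  (∀ i p q, DifferentiableOn ℂ (fun z => s i z p q) D) → (∀ i, ∀ z ∈ D, (s i z).transpose = s i z) →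
  ∀ u : Cn b → ℝ, ContDiffOn ℝ ∞ u D → ∀ z₁ ∈ D, ∀ e, lev u z₁ e = 0 →
  gram (Hb lam Om z₁) (fun i => s i z₁) ≠ 0 →
  IsLocalMax (fun z => Real.log ‖gram (Hb lam Om z) (fun i => s i z)‖ - 2 * u z) z₁ →
  ∀ i, cj (sV lam Om z₁ e) * (Hb lam Om z₁).transpose * s i z₁ = 0

/-- BIDK. The Bochner identity with a general correction term `β`. It is `S_BID` of Helper10/SP/GoalsI.lean
with `β z j l` in place of `τ_j conj(τ_l)/(Im τ)²`; the proof is the same (only `∑_j V_k^j β_jl = 0` was used).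
USES: WIRT, LMF. (Adapt the landed proof of `S_BID`.) -/
def S_BIDK : Prop := ∀ {b p : ℕ} (D : Set (Cn b)), IsOpen D → ∀ (Φ μ u : Cn b → ℝ)
  (β : Cn b → Matrix (Fin b) (Fin b) ℂ) (V : Fin (p + 1) → Cn b → Cn b),
  ContDiffOn ℝ ∞ Φ D → ContDiffOn ℝ ∞ μ D → ContDiffOn ℝ ∞ u D →
  (∀ z ∈ D, 0 < μ z) → (∀ k, DifferentiableOn ℂ (V k) D) →
  (∀ z ∈ D, ∀ e, lev u z e = 0) → (∀ k, ∀ z ∈ D, ∀ l, ∑ j, V k z j * β z j l = 0) →
  (∀ z ∈ D, ∀ j l, LM (fun y => Real.log (μ y)) z j l = LM Φ z j l - β z j l) →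
  ContDiffOn ℝ ∞ (YB Φ μ u V) D ∧ ∀ z ∈ D,
    (μ z : ℂ)⁻¹ * ∑ i, cd i (fun y => (μ y : ℂ) * YB Φ μ u V y i) z =
      (Real.exp (-2 * u z) : ℂ) * (tf (LM Φ z) (dsg (fun y => μ y * Real.exp (-2 * u y)) V z)
        (dsg (fun y => μ y * Real.exp (-2 * u y)) V z) + tf (LM Φ z) (sg V z) (sg V z))

/-- RLT0. Reality of the Levi form of an invariant density on commuting generators. USES: WIRT, LMF.
PROOF. `h_V := hV μ V`, `h_W := hV μ W` are purely imaginary on `D`. `cdb_l h_V = ∑ j LM(log μ) j l V^j` (`V` is holomorphic),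
`cd_l h_V = - conj (cdb_l h_V) = - ∑ j conj(LM(log μ) j l) conj(V^j)`; commuting: `∑ l V^l cd_l h_W = ∑ l W^l cd_l h_V` (see
the proof of `S_RLT` of Helper10/SP/GoalsI.lean). So `hermi (LM (log μ)) V W = hermi (LM (log μ)) W V`, and the matrix is
Hermitian. -/
def S_RLT0 : Prop := ∀ {b : ℕ} (D : Set (Cn b)), IsOpen D → ∀ (μ : Cn b → ℝ) (V W : Cn b → Cn b),
  ContDiffOn ℝ ∞ μ D → (∀ z ∈ D, 0 < μ z) → DifferentiableOn ℂ V D → DifferentiableOn ℂ W D →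
  CommOn D V W → (∀ z ∈ D, (hV μ V z).re = 0) → (∀ z ∈ D, (hV μ W z).re = 0) →
  ∀ z ∈ D, (hermi (LM (fun y => Real.log (μ y)) z) (V z) (W z)).im = 0

/-- GIND0. Generic independence of fields for a real Levi form (`S_GIND` without the pseudogroup; adapt the
landed proof). USES: LMF. -/
def S_GIND0 : Prop := ∀ {b m : ℕ} (x₀ : Cn b) (r : ℝ), 0 < r → ∀ (Φ : Cn b → ℝ)
  (V : Fin m → Cn b → Cn b), ContDiffOn ℝ ∞ Φ (ball x₀ r) →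
  (∀ z ∈ ball x₀ r, ∀ e, e ≠ 0 → 0 < lev Φ z e) → (∀ k, DifferentiableOn ℂ (V k) (ball x₀ r)) →
  (∀ x : Fin m → ℝ, (∀ z ∈ ball x₀ r, ∑ k, (x k : ℂ) • V k z = 0) → x = 0) →
  (∀ k l, ∀ z ∈ ball x₀ r, (hermi (LM Φ z) (V k z) (V l z)).im = 0) →
  ∃ z ∈ ball x₀ r, LinearIndependent ℂ fun k => V k z

/-- HVR0. Generators preserve invariant densities (`S_HVR` without the pseudogroup; adapt the landed proof).
PROOF. `log μ(g_n z) - log μ z + log |det Dg_n z|² = 0`. Divide by `σ_n`: `g_n = id + σ_n V + o(σ_n)` uniformly, so also the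
derivatives on compact subsets (Cauchy estimates): `fderiv ℝ (log μ) z (V z) + 2 Re tr (DV z) = 0 = Re (hV μ V z)`. -/
def S_HVR0 : Prop := ∀ {b : ℕ} (x₀ : Cn b) (r r' : ℝ), 0 < r' → r' < r → ∀ μ : Cn b → ℝ,
  ContDiffOn ℝ ∞ μ (ball x₀ r) → (∀ z ∈ ball x₀ r, 0 < μ z) → ∀ V : Cn b → Cn b,
  DifferentiableOn ℂ V (ball x₀ r) → ∀ (g : ℕ → Cn b → Cn b) (σ : ℕ → ℝ), (∀ n, 0 < σ n) →
  Tendsto σ atTop (𝓝 0) →
  (∀ ε > 0, ∀ᶠ n in atTop, ∀ z ∈ ball x₀ r', ‖g n z - z - (σ n : ℂ) • V z‖ ≤ ε * σ n) →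
  (∀ᶠ n in atTop, DifferentiableOn ℂ (g n) (ball x₀ r') ∧
    ∀ z ∈ ball x₀ r', g n z ∈ ball x₀ r ∧ μ z = μ (g n z) * ‖(fderiv ℂ (g n) z).det‖ ^ 2) →
  ∀ z ∈ ball x₀ r', (hV μ V z).re = 0

end Pool.Agent.Helper36.RK
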