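import Pool.Agent.Helper36.RK.DefsP

/-! # RK, Section E, part 2: the polarization if the Kähler metric is flat on the leaves

`hA H x a l` is the mixed component `H_(z_a, conj w_l)` of the Kähler metric at the point `x = ptK z w`. -/

open Complex Metric Set Filter Topology MeasureTheory Matrix
open scoped ContDiff ComplexConjugate ComplexOrder Manifold

namespace Pool.Agent.Helper36.RK

open Pool.Agent.Helper95.Lin Pool.Agent.Helper16.Abund Pool.Agent.Helper92.Orb Pool.Agent.Helper10.SP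
  Pool.Agent.Helper95.RK

/-- The mixed components of the metric. -/
def hA {b k : ℕ} (H : Cn (b + k) → Matrix (Fin (b + k)) (Fin (b + k)) ℂ) (x : Cn (b + k))
    (a : Fin b) (l : Fin k) : ℂ := H x (Fin.castAdd k a) (Fin.natAdd b l)

/-- The antiholomorphic slopes of the mixed components. -/
noncomputable def ccQ {b k : ℕ} (H : Cn (b + k) → Matrix (Fin (b + k)) (Fin (b + k)) ℂ) (z : Cn b)
    (a : Fin b) (m l : Fin k) : ℂ :=
  (1 / 2 : ℂ) * cdb (Fin.natAdd b m) (fun y => hA H y a l) (ptK z 0)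

/-- LAMK. The periods (Section E, part 1; helper40). -/
def S_LAMK : Prop := ∀ {b k N : ℕ} (c : Fin N → Cn b) (R : ℝ) (P : Set (Cn b) → TriK b k → Prop)
  (Φ : Cn b → ℝ) (Hf : Cn b → Matrix (Fin k) (Fin k) ℂ) (C : ℝ), AFolK c R P Φ Hf C →
  ∃ lam : Fin (2 * k) → Cn b → Cn k, PerK c P lam ∧ LimK c P lam

/-- CLQ. Closedness of the mixed components. USES: WIRT, WCH.
PROOF. `KahP.closed` with the indices `i = castAdd a`, `j = natAdd l`, `l = natAdd i`: `cd_(w_i) H_al = cd_(z_a) H_il`, and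
`H_il y = Hf (base y) i l` near `x` (`FlatFib`); chain rule for the projection `base` (`WCH`, or directly: `fderiv` of
`f ∘ base` in the direction `castAdd a`). Second: `H` is Hermitian (`posDef`), `cdb_m H_al = conj (cd_m (conj H_al)) =
conj (cd_m H_la) = conj (cd_l H_ma)` (`closed`) `= cdb_l H_am`. -/
def S_CLQ : Prop := ∀ {b k N : ℕ} (c : Fin N → Cn b) (R : ℝ) (P : Set (Cn b) → TriK b k → Prop)
  (Φ : Cn b → ℝ) (Hf : Cn b → Matrix (Fin k) (Fin k) ℂ) (C : ℝ)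
  (H : Cn (b + k) → Matrix (Fin (b + k)) (Fin (b + k)) ℂ), AFolK c R P Φ Hf C →
  KahP c R P H → FlatFib c R Hf H → ∀ x ∈ tubeK k (Bd c R), ∀ a,
  (∀ i l, cd (Fin.natAdd b i) (fun y => hA H y a l) x = cd a (fun z => Hf z i l) (base x)) ∧
  ∀ m l, cdb (Fin.natAdd b m) (fun y => hA H y a l) x = cdb (Fin.natAdd b l) (fun y => hA H y a m) x

/-- GRQ. Growth of the mixed components.
PROOF. Let `z ∈ ball (c i) 2`, `w`. By `coc` and `ext` there is `t`, `BigK c P i t`, with `t.g z ∈ Bd c 1`, `‖t.ap z w‖ < 1`. Let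
`x = ptK z w`. `KahP.inv` for `u = e_a`, `v = e_(w_l)`: `H_al x = hermi (H (t.map x)) (Dt e_a) (Dt e_(w_l))`,
`Dt e_a = (∂_a g, (∂_a A) w + ∂_a β)`, `Dt e_(w_l) = (0, A e_l)`. `H` is bounded on the compact set of the points `ptK z' w'`,
`z' ∈ ⋃ closedBall (c j) 1`, `‖w'‖ ≤ 1`. `‖∂_a g‖ ≤ C` (`lip`), `|A_pq| ≤ C` on `ball (c i) 4` (`abd`), so `|∂_a A_pq| ≤ C` at `z` (Cauchy
estimate on the ball of radius `1` about `z`), `‖β‖ ≤ C (1 + ‖β z‖)` on `ball (c i) 4` (`bgr`), so `‖∂_a β‖ ≤ C (1 + ‖β z‖)`, and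
`‖β z‖ ≤ ‖t.ap z w‖ + ‖A w‖ ≤ 1 + C ‖w‖`. -/
def S_GRQ : Prop := ∀ {b k N : ℕ} (c : Fin N → Cn b) (R : ℝ) (P : Set (Cn b) → TriK b k → Prop)
  (Φ : Cn b → ℝ) (Hf : Cn b → Matrix (Fin k) (Fin k) ℂ) (C : ℝ)
  (H : Cn (b + k) → Matrix (Fin (b + k)) (Fin (b + k)) ℂ), AFolK c R P Φ Hf C →
  KahP c R P H → ∃ K : ℝ, ∀ z ∈ Bd c 2, ∀ (w : Cn k) a l, ‖hA H (ptK z w) a l‖ ≤ K * (1 + ‖w‖)

/-- LAFQ. Holomorphic functions of linear growth are affine.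
PROOF. For fixed `w` the entire function `ζ ↦ F (ζ • w)` of one variable has linear growth, so it is affine (Liouville for
the second derivative, Cauchy estimates): `F (ζ w) = F 0 + ζ (fderiv ℂ F 0 w)`; `ζ = 1`. -/
def S_LAFQ : Prop := ∀ {k : ℕ} (F : Cn k → ℂ), Differentiable ℂ F → (∃ K : ℝ, ∀ w, ‖F w‖ ≤ K * (1 + ‖w‖)) →
  ∀ w, F w = F 0 + ∑ m, fderiv ℂ F 0 (Pi.single m 1) * w m

/-- AFQ. The structure of the mixed components. USES: CLQ, GRQ, LAFQ, WIRT.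
PROOF. Fix `z`. `F w := conj (hA H (ptK z w) a l - (1/2) ∑ i, cd a (Hf · i l) z * w i)`: smooth, and `∂/∂(conj w_i) F =
conj (∂/∂w_i (...)) = conj ((1/2) cd_(w_i) H_al - (1/2) cd_a Hf_il) = 0` (`CLQ`), so `F` is holomorphic; linear growth (`GRQ`);
`LAFQ`. Its linear coefficients are `conj (∂/∂(conj w_m) H_al (ptK z 0)) = conj (ccQ H z a m l)`. -/
def S_AFQ : Prop := ∀ {b k N : ℕ} (c : Fin N → Cn b) (R : ℝ) (P : Set (Cn b) → TriK b k → Prop)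
  (Φ : Cn b → ℝ) (Hf : Cn b → Matrix (Fin k) (Fin k) ℂ) (C : ℝ)
  (H : Cn (b + k) → Matrix (Fin (b + k)) (Fin (b + k)) ℂ), AFolK c R P Φ Hf C →
  KahP c R P H → FlatFib c R Hf H → ∀ z ∈ Bd c 2, ∀ (w : Cn k) a l,
  hA H (ptK z w) a l = hA H (ptK z 0) a l + (1 / 2 : ℂ) * ∑ i, cd a (fun y => Hf y i l) z * w i +
    ∑ m, ccQ H z a m l * conj (w m)

/-- DLQ. The derivative of the periods. USES: AFQ, WIRT.
PROOF. `t_n, s_n` from `LimK` for `i, r`; `Λ := ∑ r_j lam_j`. Let `z ∈ ball (c i) 2`; for large `n` `t_n.g z ∈ ball (c i) 2`.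
`KahP.inv` at `x = ptK z 0`, `t_n.map x = ptK (g_n z) (β_n z)`, for `u = e_a`, `v = e_(w_l)`:
`H_al(z,0) = ∑_(p base, q fibre) (∂_a g_n)_p H_pq (g_n z, β_n z) conj (A_n)_ql + ∑_(p,q fibre) (∂_a β_n)_p Hf_pq (g_n z) conj (A_n)_ql`
(`FlatFib`). Divide by `s_n → ∞`. `∂_a g_n → e_a`, `A_n → 1`, `∂_a β_n / s_n → ∂_a Λ` (uniform convergence on `ball (c i) 3`, Cauchy
estimates). By `AFQ` at `g_n z`: `H_pq (g_n z, β_n z)/s_n → (1/2) ∑_i cd_p Hf_iq(z) Λ_i + ∑_m ccQ H z p m q conj Λ_m` (`ccQ` and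
`H(·,0)` are continuous). So `0 = (1/2) ∑_i cd_a Hf_il Λ_i + ∑_m ccQ H z a m l conj Λ_m + ∑_p (∂_a Λ_p) Hf_pl`, `∂_a = (1/2) cd_a`. -/
def S_DLQ : Prop := ∀ {b k N : ℕ} (c : Fin N → Cn b) (R : ℝ) (P : Set (Cn b) → TriK b k → Prop)
  (Φ : Cn b → ℝ) (Hf : Cn b → Matrix (Fin k) (Fin k) ℂ) (C : ℝ)
  (H : Cn (b + k) → Matrix (Fin (b + k)) (Fin (b + k)) ℂ), AFolK c R P Φ Hf C →
  KahP c R P H → FlatFib c R Hf H → ∀ lam : Fin (2 * k) → Cn b → Cn k, PerK c P lam →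
  LimK c P lam → ∀ z ∈ Bd c 2, ∀ (j : Fin (2 * k)) a l,
  cd a (fun y => ∑ p, Hf y p l * lam j y p) z = -2 * ∑ m, ccQ H z a m l * conj (lam j z m)

/-- The Hermitian products of the periods. -/
noncomputable def hL {b k : ℕ} (Hf : Cn b → Matrix (Fin k) (Fin k) ℂ)
    (lam : Fin (2 * k) → Cn b → Cn k) (z : Cn b) (j j' : Fin (2 * k)) : ℂ :=
  ∑ p, ∑ l, Hf z p l * lam j z p * conj (lam j' z l)

/-- EKQ. The polarization is constant. USES: CLQ, DLQ, WIRT.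
PROOF. `f_(jj') := hL Hf lam · j j' = ∑_l (∑_p Hf_pl lam_jp) conj (lam_j'l)`. `cd_a (conj (lam_j'l)) = 0` (holomorphic), so
`cd_a f_(jj') = -2 ∑_(m,l) ccQ a m l conj(lam_jm) conj(lam_j'l)` (`DLQ`), symmetric in `j, j'` because `ccQ H z a m l` is symmetric
in `m, l` (`CLQ`). `Hf` is Hermitian: `conj f_(jj') = f_(j'j)`, so `Im f_(jj') = (f_(jj') - f_(j'j))/(2i)` has `cd_a = 0` for all `a`;
it is real, so its differential vanishes; the ball is connected. -/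
def S_EKQ : Prop := ∀ {b k N : ℕ} (c : Fin N → Cn b) (R : ℝ) (P : Set (Cn b) → TriK b k → Prop)
  (Φ : Cn b → ℝ) (Hf : Cn b → Matrix (Fin k) (Fin k) ℂ) (C : ℝ)
  (H : Cn (b + k) → Matrix (Fin (b + k)) (Fin (b + k)) ℂ), AFolK c R P Φ Hf C →
  KahP c R P H → FlatFib c R Hf H → ∀ lam : Fin (2 * k) → Cn b → Cn k, PerK c P lam →
  LimK c P lam → ∀ i, ∀ z ∈ ball (c i) 2, ∀ j j', (hL Hf lam z j j').im = (hL Hf lam (c i) j j').im

/-- OMA. Linear algebra: the inverse of `Im H(L x, L y)`.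
PROOF. `P := Lᵀ H L̄`; `Pᵀ = L̄ᵀ Hᵀ L = P̄` (`H` Hermitian), so `E` is antisymmetric and `2i E = P - P̄ = Mᵀ J M` with
`M := fromRows L L̄`, `J := fromBlocks 0 H (-Hᵀ) 0`. `M` is injective: `L x = 0 = L̄ x` gives `L (Re x) = 0 = L (Im x)`. So `M` and
`E` are invertible and `M toC E⁻¹ Mᵀ = 2i J⁻¹ = 2i fromBlocks 0 (-(Hᵀ)⁻¹) H⁻¹ 0`: `L E⁻¹ Lᵀ = 0`, `L̄ E⁻¹ Lᵀ = 2i H⁻¹`. -/
def S_OMA : Prop := ∀ {k : ℕ} (L : Matrix (Fin k) (Fin (2 * k)) ℂ) (H : Matrix (Fin k) (Fin k) ℂ)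
  (E : Matrix (Fin (2 * k)) (Fin (2 * k)) ℝ), H.PosDef →
  (∀ x : Fin (2 * k) → ℝ, L.mulVec (fun j => (x j : ℂ)) = 0 → x = 0) →
  (∀ j j', E j j' = (∑ p, ∑ l, H p l * L p j * conj (L l j')).im) →
  E.det ≠ 0 ∧ PolM L E⁻¹ ∧ hiM L E⁻¹ = H⁻¹

/-- POLQ. The polarization. USES: EKQ, OMA.
PROOF. `E_i j j' := (hL Hf lam (c i) j j').im`, `Om i := E_i⁻¹`. For `z ∈ ball (c i) 2` `EKQ` and `OMA` (independence over `ℝ`:
`PerK.bdd`) give `PolM (Lm lam z) (Om i)`. An arrow with `A L = (L ∘ g) Q`, `z ∈ ball (c i) 2`, `g z ∈ ball (c j) 2`: by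
`AFolK.herm` `hL z j j' = hermi (Hf (g z)) (A lam_j) (A lam_j')`, so `E_i = Qᵀ E_j Q`, `Q` is invertible, `Q E_i⁻¹ Qᵀ = E_j⁻¹`. -/
def S_POLQ : Prop := ∀ {b k N : ℕ} (c : Fin N → Cn b) (R : ℝ) (P : Set (Cn b) → TriK b k → Prop)
  (Φ : Cn b → ℝ) (Hf : Cn b → Matrix (Fin k) (Fin k) ℂ) (C : ℝ)
  (H : Cn (b + k) → Matrix (Fin (b + k)) (Fin (b + k)) ℂ), AFolK c R P Φ Hf C →
  KahP c R P H → FlatFib c R Hf H → ∀ lam : Fin (2 * k) → Cn b → Cn k, PerK c P lam →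
  LimK c P lam → ∃ Om : Fin N → Matrix (Fin (2 * k)) (Fin (2 * k)) ℝ, PolK c P lam Om

theorem perk (hL : S_LAMK) (hP : S_POLQ) : S_PERK := by
  intro b k N c R P Φ Hf C H hA hK hF
  obtain ⟨lam, h1, h2⟩ := hL c R P Φ Hf C hA
  obtain ⟨Om, h3⟩ := hP c R P Φ Hf C H hA hK hF lam h1 h2
  exact ⟨lam, Om, h1, h3⟩

end Pool.Agent.Helper36.RK
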